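import Mathlib

/-!
# Reflections and transvections over commutative rings (for GNR)   [helper56]
-/

set_option autoImplicit false

open Polynomial Matrix

namespace REC.GNRp

section
variable {A : Type} [CommRing A] {n : ℕ}

/-- `N = w wᵀ J` -/
def nn (J : Matrix (Fin n) (Fin n) A) (w : Fin n → A) : Matrix (Fin n) (Fin n) A :=
  vecMulVec w w * J

/-- `Q(w) = wᵀ J w` -/
def qq (J : Matrix (Fin n) (Fin n) A) (w : Fin n → A) : A := w ⬝ᵥ J *ᵥ w

/-- `R(w) = Q(w) - 2 w wᵀ J` -/
def rr (J : Matrix (Fin n) (Fin n) A) (w : Fin n → A) : Matrix (Fin n) (Fin n) A :=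
  qq J w • (1 : Matrix (Fin n) (Fin n) A) - (2 : A) • nn J w

theorem nn_sq (J : Matrix (Fin n) (Fin n) A) (w : Fin n → A) :
    nn J w * nn J w = qq J w • nn J w := by
  unfold nn qq
  rw [Matrix.vecMulVec_mul, Matrix.vecMulVec_mul_vecMulVec, ← Matrix.dotProduct_mulVec,
    Matrix.vecMulVec_smul]

theorem nn_tr (J : Matrix (Fin n) (Fin n) A) (w : Fin n → A) :
    (nn J w).transpose * J = J.transpose * (vecMulVec w w * J) := by
  unfold nn
  rw [Matrix.transpose_mul, Matrix.transpose_vecMulVec, Matrix.mul_assoc]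

theorem det_scalar_add (d c : A) (J : Matrix (Fin n) (Fin n) A) (w : Fin n → A) :
    (d • (1 : Matrix (Fin n) (Fin n) A) - c • nn J w).det = d ^ n - (c * qq J w) * d ^ (n - 1) := by
  have h := Matrix.eval_charpoly (vecMulVec (c • w) (w ᵥ* J)) d
  rw [Matrix.charpoly_vecMulVec] at h
  have e : d • (1 : Matrix (Fin n) (Fin n) A) - c • nn J w =
      Matrix.scalar (Fin n) d - vecMulVec (c • w) (w ᵥ* J) := by
    unfold nn
    rw [Matrix.vecMulVec_mul, Matrix.smul_vecMulVec]
    congr 1
    ext i j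
    simp [Matrix.one_apply, Matrix.diagonal_apply]
  rw [e, ← h]
  simp [qq, Matrix.dotProduct_mulVec, dotProduct_comm]

theorem rr_det (hn : 0 < n) (J : Matrix (Fin n) (Fin n) A) (w : Fin n → A) :
    (rr J w).det = - (qq J w) ^ n := by
  unfold rr
  rw [det_scalar_add]
  obtain ⟨k, rfl⟩ : ∃ k, n = k + 1 := ⟨n - 1, by omega⟩
  simp only [Nat.add_sub_cancel]
  ring

theorem rr_sq (J : Matrix (Fin n) (Fin n) A) (w : Fin n → A) :
    rr J w * rr J w = (qq J w) ^ 2 • (1 : Matrix (Fin n) (Fin n) A) := by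
  unfold rr
  rw [sub_mul, mul_sub, mul_sub, Matrix.smul_mul, Matrix.smul_mul, Matrix.mul_smul, Matrix.mul_smul,
    Matrix.one_mul, Matrix.one_mul, Matrix.mul_smul, Matrix.mul_one, Matrix.smul_mul,
    Matrix.mul_smul, nn_sq]
  simp only [smul_smul]
  module

theorem rr_form (J : Matrix (Fin n) (Fin n) A) (hJ : J.transpose = J) (w : Fin n → A) :
    (rr J w).transpose * J * rr J w = (qq J w) ^ 2 • J := by
  have h1 : (rr J w).transpose * J = J * rr J w := by
    unfold rr
    rw [Matrix.transpose_sub, Matrix.transpose_smul, Matrix.transpose_one, Matrix.transpose_smul,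
      sub_mul, mul_sub, Matrix.smul_mul, Matrix.smul_mul, nn_tr, hJ, Matrix.mul_smul,
      Matrix.mul_smul, Matrix.one_mul, Matrix.mul_one]
    rfl
  rw [h1, Matrix.mul_assoc, rr_sq, Matrix.mul_smul, Matrix.mul_one]

theorem nn_map {B : Type} [CommRing B] (f : A →+* B) (J : Matrix (Fin n) (Fin n) A)
    (w : Fin n → A) : (nn J w).map f = nn (J.map f) (fun i => f (w i)) := by
  unfold nn
  rw [Matrix.map_mul]
  congr 1
  ext i j
  simp [vecMulVec_apply]

theorem qq_map {B : Type} [CommRing B] (f : A →+* B) (J : Matrix (Fin n) (Fin n) A)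
    (w : Fin n → A) : f (qq J w) = qq (J.map f) (fun i => f (w i)) := by
  unfold qq
  rw [RingHom.map_dotProduct]
  congr 1
  ext i
  exact RingHom.map_mulVec f J w i

theorem rr_map {B : Type} [CommRing B] (f : A →+* B) (J : Matrix (Fin n) (Fin n) A)
    (w : Fin n → A) : (rr J w).map f = rr (J.map f) (fun i => f (w i)) := by
  unfold rr
  rw [← qq_map, ← nn_map]
  ext i j
  simp only [Matrix.map_apply, Matrix.sub_apply, Matrix.smul_apply, smul_eq_mul, map_sub, map_mul,
    map_ofNat]
  congr 1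
  by_cases h : i = j <;> simp [Matrix.one_apply, h]

end

end REC.GNRp
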