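import Pool.Agent.Helper27.REC.StmtsT
import Pool.Agent.Helper56.REC.GNRa

/-!
# GNR: equivariance for the group   [helper56]
-/

set_option autoImplicit false

open scoped Classical
open Polynomial Matrix

namespace REC
namespace GNRp

section slots

variable {K : Type} [Field K] {t : ℕ} {m : Fin t → ℕ}

/-- the relation -/
def Gd (c₁ c₁' c₂ c₂' : Fin t → ℕ) (u : Matrix (Tix m c₂ c₂') (Tix m c₁ c₁') K) (x y : MM m K) :
    Prop :=
  tmy c₂ c₂' x y * u = u * tmy c₁ c₁' x y

theorem Gd.mul (hTMB : ST_TMB) {c₁ c₁' c₂ c₂' : Fin t → ℕ}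
    {u : Matrix (Tix m c₂ c₂') (Tix m c₁ c₁') K} {x y x' y' : MM m K}
    (h : Gd c₁ c₁' c₂ c₂' u x y) (h' : Gd c₁ c₁' c₂ c₂' u x' y') :
    Gd c₁ c₁' c₂ c₂' u (fun i => x i * x' i) (fun i => y' i * y i) := by
  unfold Gd at *
  rw [(hTMB K t m c₂ c₂').1, (hTMB K t m c₁ c₁').1, Matrix.mul_assoc, h', ← Matrix.mul_assoc, h,
    Matrix.mul_assoc]

theorem Gd.one (hTMB : ST_TMB) {c₁ c₁' c₂ c₂' : Fin t → ℕ}
    (u : Matrix (Tix m c₂ c₂') (Tix m c₁ c₁') K) :
    Gd c₁ c₁' c₂ c₂' u (fun _ => 1) (fun _ => 1) := by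
  unfold Gd
  rw [(hTMB K t m c₂ c₂').2.1, (hTMB K t m c₁ c₁').2.1, Matrix.mul_one, Matrix.one_mul]

/-- one slot -/
noncomputable def ee (i : Fin t) (z : Matrix (Fin (m i)) (Fin (m i)) K) : MM m K :=
  Function.update (fun _ => 1) i z

theorem ee_same (i : Fin t) (z : Matrix (Fin (m i)) (Fin (m i)) K) : ee (m := m) i z i = z := by
  unfold ee
  simp

theorem ee_ne {i k : Fin t} (h : k ≠ i) (z : Matrix (Fin (m i)) (Fin (m i)) K) :
    ee (m := m) i z k = 1 := by
  unfold ee
  rw [Function.update_of_ne h]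

theorem ee_mul (i : Fin t) (z z' : Matrix (Fin (m i)) (Fin (m i)) K) :
    (fun k => ee (m := m) i z k * ee i z' k) = ee i (z * z') := by
  funext k
  by_cases h : k = i
  · subst h
    simp only [ee_same]
  · simp only [ee_ne h, Matrix.one_mul]

theorem ee_one (i : Fin t) : ee (m := m) (K := K) i 1 = fun _ => 1 := by
  funext k
  by_cases h : k = i
  · subst h
    simp only [ee_same]
  · simp only [ee_ne h]

theorem all_of_slots (hTMB : ST_TMB) {c₁ c₁' c₂ c₂' : Fin t → ℕ}
    (u : Matrix (Tix m c₂ c₂') (Tix m c₁ c₁') K) (x y : MM m K)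
    (h : ∀ i, Gd c₁ c₁' c₂ c₂' u (ee i (x i)) (ee i (y i))) : Gd c₁ c₁' c₂ c₂' u x y := by
  have key : ∀ s : Finset (Fin t), Gd c₁ c₁' c₂ c₂' u (fun i => if i ∈ s then x i else 1)
      (fun i => if i ∈ s then y i else 1) := by
    intro s
    induction s using Finset.induction_on with
    | empty => simpa using Gd.one hTMB u
    | @insert a s ha ih =>
      have := (h a).mul hTMB ih
      convert this using 1
      · funext i
        by_cases hi : i = a
        · subst hi
          simp [ee_same, ha]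
        · simp [ee_ne hi, hi]
      · funext i
        by_cases hi : i = a
        · subst hi
          simp [ee_same, ha]
        · simp [ee_ne hi, hi]
  simpa using key Finset.univ

/-- the closure argument -/
theorem closure_slot (hTMB : ST_TMB) {c₁ c₁' c₂ c₂' : Fin t → ℕ}
    (u : Matrix (Tix m c₂ c₂') (Tix m c₁ c₁') K) (i : Fin t)
    (S : Set (Matrix (Fin (m i)) (Fin (m i)) K))
    (hS : ∀ z ∈ S, ∃ z', z * z' = 1 ∧ Gd c₁ c₁' c₂ c₂' u (ee i z) (ee i z'))
    (z z' : Matrix (Fin (m i)) (Fin (m i)) K) (hz : z ∈ Submonoid.closure S) (hzz : z * z' = 1) :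
    Gd c₁ c₁' c₂ c₂' u (ee i z) (ee i z') := by
  have key : ∀ z ∈ Submonoid.closure S,
      ∃ z', z * z' = 1 ∧ Gd c₁ c₁' c₂ c₂' u (ee i z) (ee i z') := by
    intro z hz
    induction hz using Submonoid.closure_induction with
    | mem z hz => exact hS z hz
    | one => exact ⟨1, by simp, by rw [ee_one]; exact Gd.one hTMB u⟩
    | mul a b _ _ iha ihb =>
      obtain ⟨a', ha, hga⟩ := iha
      obtain ⟨b', hb, hgb⟩ := ihb
      refine ⟨b' * a', ?_, ?_⟩
      · rw [Matrix.mul_assoc, ← Matrix.mul_assoc b, hb, Matrix.one_mul, ha]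
      · have := hga.mul hTMB hgb
        rw [ee_mul, ee_mul] at this
        exact this
  obtain ⟨w, hw, hgw⟩ := key z hz
  have : w = z' := by
    have h1 : w * z = 1 := mul_eq_one_comm.mp hw
    calc w = w * (z * z') := by rw [hzz, Matrix.mul_one]
      _ = z' := by rw [← Matrix.mul_assoc, h1, Matrix.one_mul]
  rw [← this]
  exact hgw

end slots

section gens

variable {K : Type} [Field K] [CharZero K] {t : ℕ} {m : Fin t → ℕ}

/-- PTH in convenient form -/
theorem path (hPTH : ST_PTH) {J : MM m K} {c₁ c₁' c₂ c₂' : Fin t → ℕ}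
    {u : Matrix (Tix m c₂ c₂') (Tix m c₁ c₁') K} (hu : Eqv J u) (i : Fin t)
    (x y : Matrix (Fin (m i)) (Fin (m i)) K[X]) (d : K[X])
    (hxy : x * y = (d ^ 2) • (1 : Matrix (Fin (m i)) (Fin (m i)) K[X]))
    (hf : x.transpose * (J i).map C * x = (d ^ 2) • (J i).map C) (hdet : x.det = d ^ (m i))
    (h0 : d.eval 0 ≠ 0) (h1 : d.eval 1 ≠ 0)
    (hx0 : x.map (Polynomial.eval 0) = (d.eval 0) • (1 : Matrix (Fin (m i)) (Fin (m i)) K))
    (z z' : Matrix (Fin (m i)) (Fin (m i)) K) (hz : z = ((d.eval 1)⁻¹) • x.map (Polynomial.eval 1))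
    (hz' : z' = ((d.eval 1)⁻¹) • y.map (Polynomial.eval 1)) :
    Gd c₁ c₁' c₂ c₂' u (ee i z) (ee i z') := by
  subst hz
  subst hz'
  exact hPTH K t m J c₁ c₁' c₂ c₂' u hu i x y d hxy hf hdet h0 h1 hx0

theorem gen_sl (hPTH : ST_PTH) {J : MM m K} {c₁ c₁' c₂ c₂' : Fin t → ℕ}
    {u : Matrix (Tix m c₂ c₂') (Tix m c₁ c₁') K} (hu : Eqv J u) (i : Fin t) (hJ : J i = 0)
    (k l : Fin (m i)) (a : K) (hkl : k ≠ l) :
    ∃ z', (1 + Matrix.single k l a) * z' = 1 ∧
      Gd c₁ c₁' c₂ c₂' u (ee i (1 + Matrix.single k l a)) (ee i z') := by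
  have hmap : ∀ (f : K[X] →+* K) (b : K[X]),
      (Matrix.transvection k l b).map f = Matrix.transvection k l (f b) := by
    intro f b
    ext p p'
    simp only [Matrix.transvection, Matrix.map_apply, Matrix.add_apply, Matrix.one_apply,
      Matrix.single_apply, map_add]
    congr 1
    · split_ifs <;> simp
    · split_ifs <;> simp
  refine ⟨Matrix.transvection k l (-a), ?_, ?_⟩
  · rw [show (1 + Matrix.single k l a : Matrix (Fin (m i)) (Fin (m i)) K) =
      Matrix.transvection k l a from rfl, Matrix.transvection_mul_transvection_same _ _ hkl,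
      add_neg_cancel, Matrix.transvection_zero]
  · refine path hPTH hu i (Matrix.transvection k l (C a * Polynomial.X)) (Matrix.transvection k l (-(C a * Polynomial.X)))
      1 ?_ ?_ ?_ ?_ ?_ ?_ _ _ ?_ ?_
    · rw [Matrix.transvection_mul_transvection_same _ _ hkl, add_neg_cancel,
        Matrix.transvection_zero, one_pow, one_smul]
    · rw [hJ]
      simp
    · rw [Matrix.det_transvection_of_ne _ _ hkl, one_pow]
    · simp
    · simp
    · have := hmap (Polynomial.evalRingHom 0) (C a * Polynomial.X)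
      rw [show ((Matrix.transvection k l (C a * Polynomial.X)).map (Polynomial.eval 0)) =
        (Matrix.transvection k l (C a * Polynomial.X)).map (Polynomial.evalRingHom 0) from rfl, this]
      simp
    · have := hmap (Polynomial.evalRingHom 1) (C a * Polynomial.X)
      rw [show ((Matrix.transvection k l (C a * Polynomial.X)).map (Polynomial.eval 1)) =
        (Matrix.transvection k l (C a * Polynomial.X)).map (Polynomial.evalRingHom 1) from rfl, this]
      simp [Matrix.transvection]
    · have := hmap (Polynomial.evalRingHom 1) (-(C a * Polynomial.X))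
      rw [show ((Matrix.transvection k l (-(C a * Polynomial.X))).map (Polynomial.eval 1)) =
        (Matrix.transvection k l (-(C a * Polynomial.X))).map (Polynomial.evalRingHom 1) from rfl, this]
      simp [Matrix.transvection]

theorem gen_sp (hPTH : ST_PTH) {J : MM m K} {c₁ c₁' c₂ c₂' : Fin t → ℕ}
    {u : Matrix (Tix m c₂ c₂') (Tix m c₁ c₁') K} (hu : Eqv J u) (i : Fin t)
    (hJ : (J i).transpose = - J i) (v : Fin (m i) → K) (a : K) :
    ∃ z', (1 + a • (Matrix.vecMulVec v v * J i)) * z' = 1 ∧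
      Gd c₁ c₁' c₂ c₂' u (ee i (1 + a • (Matrix.vecMulVec v v * J i))) (ee i z') := by
  have hq : qq (J i) v = 0 := by
    have h1 : qq (J i) v = - qq (J i) v := by
      unfold qq
      conv_lhs => rw [Matrix.dotProduct_mulVec, ← Matrix.mulVec_transpose, hJ, Matrix.neg_mulVec,
        neg_dotProduct, dotProduct_comm]
    have h2 : (2 : K) * qq (J i) v = 0 := by linear_combination h1
    exact (mul_eq_zero.mp h2).resolve_left two_ne_zero
  set N : Matrix (Fin (m i)) (Fin (m i)) K[X] := nn ((J i).map C) (fun k => C (v k)) with hN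
  have hqC : qq ((J i).map C) (fun k => C (v k)) = 0 := by
    rw [← qq_map, hq, map_zero]
  have hNN : N * N = 0 := by
    rw [hN, nn_sq, hqC, zero_smul]
  have hNm : ∀ s : K, N.map (Polynomial.eval s) = nn (J i) v := by
    intro s
    have := nn_map (Polynomial.evalRingHom s) ((J i).map C) (fun k => C (v k))
    rw [hN]
    refine this.trans ?_
    congr 1
    · ext p p'
      simp
    · funext k
      simp
  have hJC : ((J i).map C).transpose = - (J i).map (C : K →+* K[X]) := by
    rw [← Matrix.transpose_map, hJ]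
    ext p p'
    simp
  have hNt : N.transpose * (J i).map C = - ((J i).map C * N) := by
    rw [hN, nn_tr, hJC, Matrix.neg_mul]
    rfl
  have hk : nn (J i) v * nn (J i) v = 0 := by rw [nn_sq, hq, zero_smul]
  refine ⟨1 - a • nn (J i) v, ?_, ?_⟩
  · change (1 + a • nn (J i) v) * (1 - a • nn (J i) v) = 1
    have e1 : (1 + a • nn (J i) v) * (1 - a • nn (J i) v) = 1 - (a * a) • (nn (J i) v * nn (J i) v) := by
      rw [mul_sub, add_mul, add_mul, Matrix.mul_one, Matrix.mul_one, Matrix.one_mul,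
        Matrix.smul_mul, Matrix.mul_smul, smul_smul]
      abel
    rw [e1, hk]
    simp
  · refine path hPTH hu i (1 + (C a * Polynomial.X) • N) (1 - (C a * Polynomial.X) • N) 1 ?_ ?_ ?_ ?_ ?_ ?_ _ _ ?_ ?_
    · have e1 : (1 + (C a * Polynomial.X) • N) * (1 - (C a * Polynomial.X) • N) =
          1 - ((C a * Polynomial.X) * (C a * Polynomial.X)) • (N * N) := by
        rw [mul_sub, add_mul, add_mul, Matrix.mul_one, Matrix.mul_one, Matrix.one_mul,
          Matrix.smul_mul, Matrix.mul_smul, smul_smul]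
        abel
      rw [e1, hNN]
      simp
    · rw [Matrix.transpose_add, Matrix.transpose_one, Matrix.transpose_smul, add_mul,
        Matrix.one_mul, Matrix.smul_mul, hNt, mul_add, Matrix.mul_one, add_mul, Matrix.mul_smul,
        Matrix.smul_mul, Matrix.mul_smul, Matrix.neg_mul, Matrix.mul_assoc, hNN]
      simp
    · have := det_scalar_add (1 : K[X]) (-(C a * Polynomial.X)) ((J i).map C) (fun k => C (v k))
      rw [hqC, ← hN] at this
      have e : (1 : K[X]) • (1 : Matrix (Fin (m i)) (Fin (m i)) K[X]) - -(C a * Polynomial.X) • N =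
          1 + (C a * Polynomial.X) • N := by
        rw [one_smul, neg_smul, sub_neg_eq_add]
      rw [e] at this
      rw [this]
      simp
    · simp
    · simp
    · ext p p'
      have := congrFun (congrFun (hNm 0) p) p'
      simp only [Matrix.map_apply] at this
      by_cases h : p = p' <;> simp [h]
    · ext p p'
      have := congrFun (congrFun (hNm 1) p) p'
      simp only [Matrix.map_apply] at this
      change (1 : Matrix (Fin (m i)) (Fin (m i)) K) p p' + a * nn (J i) v p p' =
        (Polynomial.eval 1 (1 : K[X]))⁻¹ * Polynomial.eval 1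
          ((1 : Matrix (Fin (m i)) (Fin (m i)) K[X]) p p' + (C a * Polynomial.X) * N p p')
      rw [← this]
      by_cases h : p = p' <;> simp [Matrix.one_apply, h]
    · ext p p'
      have := congrFun (congrFun (hNm 1) p) p'
      simp only [Matrix.map_apply] at this
      change (1 : Matrix (Fin (m i)) (Fin (m i)) K) p p' - a * nn (J i) v p p' =
        (Polynomial.eval 1 (1 : K[X]))⁻¹ * Polynomial.eval 1
          ((1 : Matrix (Fin (m i)) (Fin (m i)) K[X]) p p' - (C a * Polynomial.X) * N p p')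
      rw [← this]
      by_cases h : p = p' <;> simp [Matrix.one_apply, h]

theorem gen_so (hPTH : ST_PTH) {J : MM m K} {c₁ c₁' c₂ c₂' : Fin t → ℕ}
    {u : Matrix (Tix m c₂ c₂') (Tix m c₁ c₁') K} (hu : Eqv J u) (i : Fin t) (hm : 0 < m i)
    (hJ : (J i).transpose = J i) (v v' : Fin (m i) → K) (hv : v ⬝ᵥ (J i).mulVec v ≠ 0)
    (hv' : v' ⬝ᵥ (J i).mulVec v' ≠ 0) :
    ∃ z', ((1 - (2 * (v ⬝ᵥ (J i).mulVec v)⁻¹) • (Matrix.vecMulVec v v * J i)) *
        (1 - (2 * (v' ⬝ᵥ (J i).mulVec v')⁻¹) • (Matrix.vecMulVec v' v' * J i))) * z' = 1 ∧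
      Gd c₁ c₁' c₂ c₂' u (ee i ((1 - (2 * (v ⬝ᵥ (J i).mulVec v)⁻¹) •
        (Matrix.vecMulVec v v * J i)) *
        (1 - (2 * (v' ⬝ᵥ (J i).mulVec v')⁻¹) • (Matrix.vecMulVec v' v' * J i)))) (ee i z') := by
  have hv1 : qq (J i) v ≠ 0 := hv
  have hv1' : qq (J i) v' ≠ 0 := hv'
  have refl : ∀ w : Fin (m i) → K, qq (J i) w ≠ 0 →
      1 - (2 * (w ⬝ᵥ (J i).mulVec w)⁻¹) • (Matrix.vecMulVec w w * J i) =
        (qq (J i) w)⁻¹ • rr (J i) w := by
    intro w hw
    unfold rr
    rw [smul_sub, smul_smul, smul_smul, inv_mul_cancel₀ hw, one_smul, mul_comm]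
    rfl
  rw [refl v hv1, refl v' hv1']
  set Q := qq (J i) v with hQ
  set Q' := qq (J i) v' with hQ'
  have hJC : ((J i).map C).transpose = (J i).map (C : K →+* K[X]) := by
    rw [← Matrix.transpose_map, hJ]
  -- the path
  set vt : Fin (m i) → K[X] := fun k => C (v k) + Polynomial.X * C (v' k - v k) with hvt
  set vC : Fin (m i) → K[X] := fun k => C (v k) with hvC
  set JC : Matrix (Fin (m i)) (Fin (m i)) K[X] := (J i).map C with hJCdef
  have hQC : qq JC vC = C Q := (qq_map C (J i) v).symm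
  have hJe : ∀ s : K, JC.map (Polynomial.evalRingHom s) = J i := by
    intro s
    ext p p'
    simp [hJCdef]
  have hev0 : (fun k => (Polynomial.evalRingHom (0 : K)) (vt k)) = v := by
    funext k
    simp [hvt]
  have hev1 : (fun k => (Polynomial.evalRingHom (1 : K)) (vt k)) = v' := by
    funext k
    simp [hvt]
  have hevC : ∀ s : K, (fun k => (Polynomial.evalRingHom s) (vC k)) = v := by
    intro s
    funext k
    simp [hvC]
  have q0 : (qq JC vt).eval 0 = Q := by
    have := qq_map (Polynomial.evalRingHom (0 : K)) JC vt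
    rw [hJe, hev0] at this
    exact this
  have q1 : (qq JC vt).eval 1 = Q' := by
    have := qq_map (Polynomial.evalRingHom (1 : K)) JC vt
    rw [hJe, hev1] at this
    exact this
  have r0 : (rr JC vt).map (Polynomial.evalRingHom (0 : K)) = rr (J i) v := by
    rw [rr_map, hJe, hev0]
  have r1 : (rr JC vt).map (Polynomial.evalRingHom (1 : K)) = rr (J i) v' := by
    rw [rr_map, hJe, hev1]
  have rC : ∀ s : K, (rr JC vC).map (Polynomial.evalRingHom s) = rr (J i) v := by
    intro s
    rw [rr_map, hJe, hevC]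
  refine ⟨(Q'⁻¹ • rr (J i) v') * (Q⁻¹ • rr (J i) v), ?_, ?_⟩
  · have h1 : (Q'⁻¹ • rr (J i) v') * (Q'⁻¹ • rr (J i) v') = 1 := by
      rw [Matrix.smul_mul, Matrix.mul_smul, rr_sq, smul_smul, smul_smul, ← hQ',
        show Q'⁻¹ * Q'⁻¹ * Q' ^ 2 = 1 by field_simp, one_smul]
    have h2 : (Q⁻¹ • rr (J i) v) * (Q⁻¹ • rr (J i) v) = 1 := by
      rw [Matrix.smul_mul, Matrix.mul_smul, rr_sq, smul_smul, smul_smul, ← hQ,
        show Q⁻¹ * Q⁻¹ * Q ^ 2 = 1 by field_simp, one_smul]
    rw [Matrix.mul_assoc, ← Matrix.mul_assoc (Q'⁻¹ • rr (J i) v'), h1, Matrix.one_mul, h2]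
  · refine path hPTH hu i (rr JC vC * rr JC vt) (rr JC vt * rr JC vC) (C Q * qq JC vt)
      ?_ ?_ ?_ ?_ ?_ ?_ _ _ ?_ ?_
    · rw [Matrix.mul_assoc, ← Matrix.mul_assoc (rr JC vt), rr_sq, Matrix.smul_mul, Matrix.one_mul,
        Matrix.mul_smul, rr_sq, smul_smul, hQC]
      congr 1
      ring
    · rw [Matrix.transpose_mul]
      have : (rr JC vt).transpose * (rr JC vC).transpose * JC * (rr JC vC * rr JC vt) =
          (rr JC vt).transpose * ((rr JC vC).transpose * JC * rr JC vC) * rr JC vt := by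
        simp only [Matrix.mul_assoc]
      rw [this, rr_form JC hJC, Matrix.mul_smul, Matrix.smul_mul, rr_form JC hJC, smul_smul, hQC]
      congr 1
      ring
    · rw [Matrix.det_mul, rr_det hm, rr_det hm, hQC]
      ring
    · rw [Polynomial.eval_mul, Polynomial.eval_C, q0]
      exact mul_ne_zero hv1 hv1
    · rw [Polynomial.eval_mul, Polynomial.eval_C, q1]
      exact mul_ne_zero hv1 hv1'
    · rw [Polynomial.eval_mul, Polynomial.eval_C, q0]
      change (rr JC vC * rr JC vt).map (Polynomial.evalRingHom (0 : K)) = _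
      rw [Matrix.map_mul, r0, rC, rr_sq, ← hQ, sq]
    · rw [Polynomial.eval_mul, Polynomial.eval_C, q1]
      change _ = _ • (rr JC vC * rr JC vt).map (Polynomial.evalRingHom (1 : K))
      rw [Matrix.map_mul, r1, rC, Matrix.smul_mul, Matrix.mul_smul, smul_smul, mul_inv]
    · rw [Polynomial.eval_mul, Polynomial.eval_C, q1]
      change _ = _ • (rr JC vt * rr JC vC).map (Polynomial.evalRingHom (1 : K))
      rw [Matrix.map_mul, r1, rC, Matrix.smul_mul, Matrix.mul_smul, smul_smul, mul_inv,
        mul_comm Q'⁻¹]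

end gens

end GNRp

open GNRp in
/-- GNR: equivariance for the group (from TMB, PTH, GSL, GSP, GSO). -/
theorem GNR (hTMB : ST_TMB) (hPTH : ST_PTH) (hGSL : ST_GSL) (hGSP : ST_GSP) (hGSO : ST_GSO) :
    ST_GNR := by
  intro K _ _ t m J hJ c₁ c₁' c₂ c₂' u hu x y hxy
  refine all_of_slots hTMB u x y fun i => ?_
  obtain ⟨hm, hcase⟩ := hJ i
  obtain ⟨h1, h2, h3⟩ := hxy i
  rcases hcase with h0 | ⟨horth, hsym⟩
  · have hJ0 : jm K J i = 0 := by
      unfold jm
      rw [h0]
      ext p p'
      simp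
    refine closure_slot hTMB u i _ ?_ (x i) (y i) (hGSL K (m i) (x i) h2) h1
    rintro z ⟨k, l, a, hkl, rfl⟩
    exact gen_sl hPTH hu i hJ0 k l a hkl
  · have horthK : jm K J i * (jm K J i).transpose = 1 := by
      have := congrArg (fun M : Matrix (Fin (m i)) (Fin (m i)) ℤ => M.map (Int.castRingHom K)) horth
      simp only [Matrix.map_mul, Matrix.transpose_map] at this
      unfold jm
      rw [this]
      ext p p'
      by_cases h : p = p' <;> simp [Matrix.one_apply, h]
    have hunit : IsUnit (jm K J i).det := by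
      have := congrArg Matrix.det horthK
      rw [Matrix.det_mul, Matrix.det_one] at this
      exact IsUnit.of_mul_eq_one _ this
    rcases hsym with hs | hs
    · have hsK : (jm K J i).transpose = jm K J i := by
        unfold jm
        rw [← Matrix.transpose_map, hs]
      refine closure_slot hTMB u i _ ?_ (x i) (y i) (hGSO K (m i) (jm K J i) hunit hsK (x i) h3 h2)
        h1
      rintro z ⟨v, v', hv, hv', rfl⟩
      exact gen_so hPTH hu i hm hsK v v' hv hv'
    · have hsK : (jm K J i).transpose = - jm K J i := by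
        unfold jm
        rw [← Matrix.transpose_map, hs]
        ext p p'
        simp
      refine closure_slot hTMB u i _ ?_ (x i) (y i) (hGSP K (m i) (jm K J i) hunit hsK (x i) h3) h1
      rintro z ⟨v, a, rfl⟩
      exact gen_sp hPTH hu i hsK v a

end REC
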