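import Pool.Agent.Helper85.REC.Stmts14

/-!
# Row DIH of REC Part 14: inertia at `l` in the dihedral case
Typed by helper56 from `rec_blueprint14.md` (helper85).
-/

set_option autoImplicit false
open scoped Classical
open NumberField Polynomial
namespace REC
open MU
namespace DihRow

/-- the numeric contradiction -/
theorem num {l r : ℕ} (hl : 1 < l) (hr : 0 < r) (a : ℕ) (ha : 0 < a) (hal : 2 * a + 1 < l)
    (δ : Fin r → ℤ) (hδ : ∀ i, |δ i| = a) :
    ¬ ((l : ℤ) ^ r - 1) ∣ 2 * ∑ i : Fin r, (l : ℤ) ^ (i : ℕ) * δ i := by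
  intro hdvd
  set s : ℤ := ∑ i : Fin r, (l : ℤ) ^ (i : ℕ) * δ i with hs
  have hl' : (1 : ℤ) < l := by exact_mod_cast hl
  have hgeom : ((l : ℤ) - 1) * ∑ i : Fin r, (l : ℤ) ^ (i : ℕ) = (l : ℤ) ^ r - 1 := by
    rw [Fin.sum_univ_eq_sum_range (fun i => (l : ℤ) ^ i) r, mul_comm]
    exact geom_sum_mul _ _
  have h1 : |s| ≤ a * ∑ i : Fin r, (l : ℤ) ^ (i : ℕ) := by
    rw [hs, Finset.mul_sum]
    refine (Finset.abs_sum_le_sum_abs _ _).trans (Finset.sum_le_sum fun i _ => ?_)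
    rw [abs_mul, hδ, abs_of_nonneg (by positivity), mul_comm]
  have h2 : ((l : ℤ) - 1) * |s| ≤ a * ((l : ℤ) ^ r - 1) := by
    calc ((l : ℤ) - 1) * |s| ≤ ((l : ℤ) - 1) * (a * ∑ i : Fin r, (l : ℤ) ^ (i : ℕ)) :=
          mul_le_mul_of_nonneg_left h1 (by linarith)
      _ = a * ((l : ℤ) ^ r - 1) := by rw [← hgeom]; ring
  have h3 : s ≠ 0 := by
    intro h0
    obtain ⟨r', rfl⟩ : ∃ r', r = r' + 1 := ⟨r - 1, by omega⟩
    rw [Fin.sum_univ_succ] at hs
    simp only [Fin.val_zero, pow_zero, one_mul, Fin.val_succ] at hs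
    have h4 : (l : ℤ) ∣ δ 0 := by
      have h5 : δ 0 = - ∑ i : Fin r', (l : ℤ) ^ ((i : ℕ) + 1) * δ i.succ := by linarith
      rw [h5]
      refine (Finset.dvd_sum fun i _ => ?_).neg_right
      rw [pow_succ]
      exact dvd_mul_of_dvd_left (dvd_mul_left _ _) _
    have h6 : (l : ℤ) ∣ |δ 0| := (dvd_abs _ _).2 h4
    rw [hδ] at h6
    have := Int.le_of_dvd (by exact_mod_cast ha) h6
    have h7 : (a : ℤ) < l := by exact_mod_cast (by omega : a < l)
    linarith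
  have hpos : (0 : ℤ) < (l : ℤ) ^ r - 1 := by
    have := one_lt_pow₀ hl' hr.ne'
    linarith
  have h8 : (l : ℤ) ^ r - 1 ≤ |2 * s| :=
    Int.le_of_dvd (abs_pos.2 (mul_ne_zero two_ne_zero h3)) ((dvd_abs _ _).2 hdvd)
  rw [abs_mul, abs_two] at h8
  have h9 : (2 * (a : ℤ) + 1 : ℤ) < l := by exact_mod_cast hal
  have h10 : (0 : ℤ) < |s| := abs_pos.2 h3
  nlinarith

section Gen

variable {Ω k : Type} [Field Ω] [Field k]

/-- `σ` is in the inertia group of `θ` and its value at `y` is `t` -/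
def Val (θ : integralClosure ℤ Ω →+* k) (y : integralClosure ℤ Ω) (σ : Ω → Ω) (t : k) : Prop :=
  CongPow (RingHom.ker θ) 1 σ ∧ ∃ z : integralClosure ℤ Ω,
    (z : Ω) * (y : Ω) = σ (y : Ω) ∧ θ z = t

theorem val_one (θ : integralClosure ℤ Ω →+* k) (y : integralClosure ℤ Ω) :
    Val θ y (fun x => x) 1 := by
  refine ⟨fun x x' h => ?_, 1, by simp, map_one _⟩
  have : x' = x := Subtype.ext h
  rw [this, pow_one, sub_self]
  exact Ideal.zero_mem _

theorem val_mul {θ : integralClosure ℤ Ω →+* k} {y : integralClosure ℤ Ω} {σ τ : Ω →+* Ω}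
    {s t : k} (h : Val θ y σ s) (h' : Val θ y τ t) : Val θ y (fun x => σ (τ x)) (s * t) := by
  obtain ⟨h1, z, hz, rfl⟩ := h
  obtain ⟨h1', z', hz', rfl⟩ := h'
  have hint : ∀ (σ : Ω →+* Ω) (x : integralClosure ℤ Ω), ∃ x' : integralClosure ℤ Ω,
      (x' : Ω) = σ x := by
    intro σ x
    exact ⟨⟨σ x, map_isIntegral_int σ x.2⟩, rfl⟩
  refine ⟨fun x x' hx => ?_, ?_⟩
  · obtain ⟨u, hu⟩ := hint τ x
    have e1 := h1' x u hu
    have e2 := h1 u x' (by rw [hx, hu])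
    rw [RingHom.mem_ker, map_sub, pow_one, sub_eq_zero] at e1 e2 ⊢
    rw [e2, e1]
  · obtain ⟨u, hu⟩ := hint σ z'
    refine ⟨u * z, ?_, ?_⟩
    · show _ = σ (τ (y : Ω))
      rw [← hz', map_mul, ← hz, ← hu]
      push_cast
      ring
    · have e2 := h1 z' u hu
      rw [RingHom.mem_ker, map_sub, pow_one, sub_eq_zero] at e2
      rw [map_mul, e2, mul_comm]

/-- existence of the value -/
theorem val_exists {θ : integralClosure ℤ Ω →+* k} {y : integralClosure ℤ Ω} {N l : ℕ}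
    (hN : 0 < N) (hl : (l : Ω) ≠ 0)
    (hy : (y : Ω) ^ N = l) (σ : Ω →+* Ω) (hσ : CongPow (RingHom.ker θ) 1 σ) :
    ∃ t : k, Val θ y σ t ∧ t ^ N = 1 := by
  have hy0 : (y : Ω) ≠ 0 := by
    intro h
    rw [h, zero_pow hN.ne'] at hy
    exact hl hy.symm
  have hσy : (σ (y : Ω)) ^ N = l := by
    rw [← map_pow, hy, map_natCast]
  have hz : ((σ (y : Ω)) / y) ^ N = 1 := by
    rw [div_pow, hσy, hy, div_self hl]
  have hzi : IsIntegral ℤ ((σ (y : Ω)) / y) := by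
    refine IsIntegral.of_pow hN ?_
    rw [hz]
    exact isIntegral_one
  obtain ⟨z, hz'⟩ : ∃ z : integralClosure ℤ Ω, (z : Ω) = (σ (y : Ω)) / (y : Ω) :=
    ⟨⟨_, hzi⟩, rfl⟩
  refine ⟨θ z, ⟨hσ, z, ?_, rfl⟩, ?_⟩
  · rw [hz']
    exact div_mul_cancel₀ _ hy0
  · have h1 : z ^ N = 1 := by
      apply Subtype.ext
      rw [SubmonoidClass.coe_pow, hz', hz]
      rfl
    rw [← map_pow, h1, map_one]

end Gen

variable {F : Type} [Field F] {k : Type} [Field k]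

/-- `Val` for elements of the Galois group -/
def ValF (θ : Zb F →+* k) (y : Zb F) (σ : Gal F) (t : k) : Prop :=
  CongPow (RingHom.ker θ) 1 σ ∧ ∃ z : Zb F,
    (z : AlgebraicClosure F) * (y : AlgebraicClosure F) = σ (y : AlgebraicClosure F) ∧ θ z = t

theorem valF_mul {θ : Zb F →+* k} {y : Zb F} {σ τ : Gal F} {s t : k} (h : ValF θ y σ s)
    (h' : ValF θ y τ t) : ValF θ y (σ * τ) (s * t) :=
  val_mul (θ := θ) (y := y) (σ := (σ : AlgebraicClosure F →+* AlgebraicClosure F))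
    (τ := (τ : AlgebraicClosure F →+* AlgebraicClosure F)) h h'

theorem valF_one (θ : Zb F →+* k) (y : Zb F) : ValF θ y 1 1 := val_one θ y

theorem valF_pow {θ : Zb F →+* k} {y : Zb F} {σ : Gal F} {s : k} (h : ValF θ y σ s) (n : ℕ) :
    ValF θ y (σ ^ n) (s ^ n) := by
  induction n with
  | zero => rw [pow_zero, pow_zero]; exact valF_one θ y
  | succ n ih => rw [pow_succ, pow_succ]; exact valF_mul ih h

theorem valF_exists {θ : Zb F →+* k} {y : Zb F} {N l : ℕ} (hN : 0 < N)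
    (hl : (l : AlgebraicClosure F) ≠ 0) (hy : (y : AlgebraicClosure F) ^ N = l) (σ : Gal F)
    (hσ : CongPow (RingHom.ker θ) 1 σ) : ∃ t : k, ValF θ y σ t ∧ t ^ N = 1 :=
  val_exists (θ := θ) (y := y) hN hl hy (σ : AlgebraicClosure F →+* AlgebraicClosure F) hσ

theorem charP_of (k : Type) [Field k] {l : ℕ} (hl : l.Prime) (h : (l : k) = 0) : CharP k l :=
  (CharP.charP_iff_prime_eq_zero hl).mpr h

theorem exists_theta {Ω : Type} [Field Ω] {l : ℕ} (hl : l.Prime)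
    (𝔓 : Ideal (integralClosure ℤ Ω)) (h : Over l 𝔓) :
    ∃ (k : Type) (_ : Field k) (_κ : ZMod l →+* k) (θ : integralClosure ℤ Ω →+* k),
      (∀ σ : Ω → Ω, CongPow 𝔓 1 σ → CongPow (RingHom.ker θ) 1 σ) ∧ θ l = 0 := by
  have hp : 𝔓.IsPrime := h.1
  let k := FractionRing (integralClosure ℤ Ω ⧸ 𝔓)
  let θ : integralClosure ℤ Ω →+* k :=
    (algebraMap (integralClosure ℤ Ω ⧸ 𝔓) k).comp (Ideal.Quotient.mk 𝔓)
  have hker : RingHom.ker θ = 𝔓 := by
    ext x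
    rw [RingHom.mem_ker, RingHom.comp_apply, ← Ideal.Quotient.eq_zero_iff_mem]
    exact map_eq_zero_iff _ (IsFractionRing.injective (integralClosure ℤ Ω ⧸ 𝔓) k)
  have hθ : θ l = 0 := by
    rw [← RingHom.mem_ker, hker]
    exact h.2
  have hlk : (l : k) = 0 := by
    rw [← map_natCast θ, hθ]
  have hch : CharP k l := charP_of k hl hlk
  exact ⟨k, inferInstance, ZMod.castHom (dvd_refl l) k, θ,
    fun σ h => by rw [hker]; exact h, hθ⟩

theorem exps {t : k} {N : ℕ} (hN : orderOf t = N) (hN0 : 0 < N) {A B : ℕ}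
    (h : t ^ A + t ^ B = 0) : (N : ℤ) ∣ 2 * ((A : ℤ) - B) := by
  have ht : t ≠ 0 := by
    rintro rfl
    have := pow_orderOf_eq_one (0 : k)
    rw [hN, zero_pow hN0.ne'] at this
    exact zero_ne_one this
  have h1 : t ^ (2 * A) = t ^ (2 * B) := by
    have : t ^ A = - t ^ B := eq_neg_of_add_eq_zero_left h
    rw [mul_comm 2 A, mul_comm 2 B, pow_mul, pow_mul, this, neg_sq]
  have h2 : (Units.mk0 t ht) ^ (2 * A) = (Units.mk0 t ht) ^ (2 * B) := by
    apply Units.ext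
    simpa using h1
  rw [pow_eq_pow_iff_modEq, ← orderOf_units, Units.val_mk0, hN] at h2
  have h3 := (Nat.modEq_iff_dvd.1 h2.symm)
  push_cast at h3
  have h4 : 2 * ((A : ℤ) - B) = 2 * (A : ℤ) - 2 * B := by ring
  rw [h4]
  exact h3

end DihRow

open DihRow

theorem st_DIH : ST_TSR → ST_DIH := by
  intro hT F _ _ S hS w h M hinj hFLC
  obtain ⟨c1, hc1⟩ := hFLC
  obtain ⟨c2, hc2⟩ := hT F
  obtain ⟨a, ha⟩ : ∃ a : ℕ, (a : ℤ) = |(h 0 : ℤ) - h 1| :=
    ⟨((h 0 : ℤ) - h 1).natAbs, Int.natCast_natAbs _⟩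
  have ha0 : 0 < a := by
    have h1 : h 0 ≠ h 1 := fun h2 => by simpa using hinj h2
    have h2 : (0 : ℤ) < |(h 0 : ℤ) - h 1| := by
      rw [abs_pos, sub_ne_zero]
      exact_mod_cast h1
    rw [← ha] at h2
    exact_mod_cast h2
  refine ⟨max (max c1 c2) (2 * a + 1), fun l _ hl Y hY htr 𝔓 h𝔓 σ hσ => ?_⟩
  have hl1 : c1 < l := lt_of_le_of_lt ((le_max_left _ _).trans (le_max_left _ _)) hl
  have hl2 : c2 < l := lt_of_le_of_lt ((le_max_right _ _).trans (le_max_left _ _)) hl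
  have hl3 : 2 * a + 1 < l := lt_of_le_of_lt (le_max_right _ _) hl
  have hlp : l.Prime := Fact.out
  by_contra hσY
  obtain ⟨k, _, κ, θ, hker, hθl⟩ := exists_theta hlp 𝔓 h𝔓
  obtain ⟨r, s, hr, hFL⟩ := hc1 l hl1 k κ θ
  obtain ⟨σ₀, y, z₀, h1, h2, h3, h4⟩ := hc2 l hl2 k θ hθl r hr
  obtain ⟨N, hN⟩ : ∃ N, N = l ^ r - 1 := ⟨_, rfl⟩
  have hlr : 1 < l ^ r := Nat.one_lt_pow hr.ne' hlp.one_lt
  have hN0 : 0 < N := by omega
  rw [← hN] at h4
  have hl0 : (l : AlgebraicClosure F) ≠ 0 := Nat.cast_ne_zero.2 hlp.ne_zero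
  have hy : (y : AlgebraicClosure F) ^ N = l := by
    have := congrArg (fun x : Zb F => (x : AlgebraicClosure F)) h2
    rw [← hN] at this
    simpa using this
  have V0 : ValF θ y σ₀ (θ z₀) := ⟨h1, z₀, h3, rfl⟩
  obtain ⟨t, Vσ, ht⟩ := valF_exists (θ := θ) hN0 hl0 hy σ (hker σ hσ)
  have hprim : IsPrimitiveRoot (θ z₀) N := by
    rw [← h4]; exact IsPrimitiveRoot.orderOf _
  have : NeZero N := ⟨hN0.ne'⟩
  obtain ⟨m, -, hm⟩ := hprim.eq_pow_of_pow_eq_one ht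
  obtain ⟨σ', hσ'Y, V'⟩ : ∃ σ' : Gal F, σ' ∉ Y ∧ ValF θ y σ' (θ z₀) := by
    by_cases hY0 : σ₀ ∈ Y
    · refine ⟨σ * σ₀ ^ (m * (N - 1) + 1), fun hmem => ?_, ?_⟩
      · exact hσY ((Subgroup.mul_mem_cancel_right Y (Y.pow_mem hY0 _)).1 hmem)
      · have h5 := valF_mul Vσ (valF_pow V0 (m * (N - 1) + 1))
        have h6 : t * θ z₀ ^ (m * (N - 1) + 1) = θ z₀ := by
          rw [← hm, ← pow_add]
          have h7 : m + (m * (N - 1) + 1) = N * m + 1 := by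
            obtain ⟨N', rfl⟩ : ∃ N', N = N' + 1 := ⟨N - 1, by omega⟩
            rw [Nat.add_sub_cancel]; ring
          rw [h7, pow_succ, pow_mul, hprim.pow_eq_one, one_pow, one_mul]
        rw [h6] at h5
        exact h5
    · exact ⟨σ₀, hY0, V0⟩
  obtain ⟨hcong, z', hz', hθz'⟩ := V'
  have hcp := hFL σ' y z' hcong h2 hz'
  rw [Fin.prod_univ_two, hθz', Matrix.charpoly_fin_two,
    htr σ'⁻¹ (fun h => hσ'Y (inv_mem_iff.1 h))] at hcp
  have hexp : ∀ x x' : k, (Polynomial.X - C x) * (Polynomial.X - C x') =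
      Polynomial.X ^ 2 - C (x + x') * Polynomial.X + C (x * x') := by
    intro x x'
    rw [map_add, map_mul]; ring
  rw [hexp] at hcp
  obtain ⟨E, hE⟩ : ∃ E : Fin 2 → ℕ, E = fun b => ∑ i : Fin r, l ^ (i : ℕ) * h (s i b) := ⟨_, rfl⟩
  have hE0 : ∑ i : Fin r, l ^ (i : ℕ) * h (s i 0) = E 0 := by rw [hE]
  have hE1 : ∑ i : Fin r, l ^ (i : ℕ) * h (s i 1) = E 1 := by rw [hE]
  rw [hE0, hE1] at hcp
  have hc := congrArg (fun p : k[X] => p.coeff 1) hcp
  simp only [Polynomial.map_add, Polynomial.map_pow,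
    Polynomial.map_X, Polynomial.map_C, map_zero, zero_mul, sub_zero, coeff_add, coeff_sub,
    coeff_X_pow, coeff_C_mul, coeff_X_one, coeff_C, mul_one] at hc
  norm_num at hc
  have hc' : (θ z₀) ^ (E 0) + (θ z₀) ^ (E 1) = 0 := by linear_combination hc
  have hdvd := exps h4 hN0 hc'
  refine num (l := l) (r := r) hlp.one_lt hr a ha0 hl3
    (fun i => (h (s i 0) : ℤ) - h (s i 1)) (fun i => ?_) ?_
  · have hne : s i 0 ≠ s i 1 := fun h => by simpa using (s i).injective h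
    rcases (by decide : ∀ x y : Fin 2, x ≠ y → (x = 0 ∧ y = 1) ∨ (x = 1 ∧ y = 0)) _ _ hne with
      ⟨e0, e1⟩ | ⟨e0, e1⟩
    · rw [e0, e1, ha]
    · rw [e0, e1, ha, abs_sub_comm]
  · have hNZ : (N : ℤ) = (l : ℤ) ^ r - 1 := by
      rw [hN, Nat.cast_sub hlr.le]
      push_cast
      ring
    rw [← hNZ]
    have hEE : ∑ i : Fin r, (l : ℤ) ^ (i : ℕ) * ((h (s i 0) : ℤ) - h (s i 1)) =
        (E 0 : ℤ) - E 1 := by
      rw [← hE0, ← hE1]
      push_cast
      rw [← Finset.sum_sub_distrib]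
      exact Finset.sum_congr rfl fun i _ => by ring
    rw [hEE]
    exact hdvd

end REC
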