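import Pool.Agent.Helper85.REC.Stmts14

/-!
# Row DKS of REC Part 14: finite subgroups of `GL_2(k)` of order prime to the characteristic
Typed by helper56 from `rec_blueprint14.md` (helper85). The counting of pairs (element, fixed line)
is done with Burnside's lemma for the image of the group in the permutations of the lines.
-/

set_option autoImplicit false

open scoped Classical LinearAlgebra.Projectivization
open MulAction

namespace REC.DksRow

theorem three (N a b c x y z : ℕ) (hx : a * x = N) (hy : b * y = N) (hz : c * z = N)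
    (hxy : x ≤ y) (hyz : y ≤ z) (x2 : 2 ≤ x) (_a3 : 3 ≤ a) (_b3 : 3 ≤ b)
    (c3 : 3 ≤ c) (h : a + b + c = N + 2) : N ∣ 120 := by
  have h1 : b ≤ a := by
    by_contra hlt
    push Not at hlt
    nlinarith [Nat.mul_le_mul (le_of_lt hlt) hxy, Nat.mul_lt_mul_of_lt_of_le hlt hxy (by omega)]
  have h2 : c ≤ b := by
    by_contra hlt
    push Not at hlt
    nlinarith [Nat.mul_lt_mul_of_lt_of_le hlt hyz (by omega)]
  have hx3 : x < 3 := by
    by_contra hge
    push Not at hge
    nlinarith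
  obtain rfl : x = 2 := by omega
  have hy4 : y < 4 := by
    by_contra hge
    push Not at hge
    nlinarith
  have hz6 : y = 2 ∨ y = 3 := by omega
  rcases hz6 with rfl | rfl
  · omega
  · have hz6 : z < 6 := by
      by_contra hge
      push Not at hge
      nlinarith
    have h3 : z = 3 ∨ z = 4 ∨ z = 5 := by omega
    rcases h3 with rfl | rfl | rfl
    · have : N = 12 := by omega
      subst this; decide
    · have : N = 24 := by omega
      subst this; decide
    · have : N = 60 := by omega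
      subst this; decide

theorem three' (N a b c x y z : ℕ) (hx : a * x = N) (hy : b * y = N) (hz : c * z = N)
    (x2 : 2 ≤ x) (y2 : 2 ≤ y) (z2 : 2 ≤ z) (a3 : 3 ≤ a) (b3 : 3 ≤ b)
    (c3 : 3 ≤ c) (h : a + b + c = N + 2) : N ∣ 120 := by
  rcases le_total x y with h1 | h1 <;> rcases le_total y z with h2 | h2 <;>
    rcases le_total x z with h3 | h3
  · exact three N a b c x y z hx hy hz h1 h2 x2 a3 b3 c3 h
  · exact three N a b c x y z hx hy hz h1 h2 x2 a3 b3 c3 h
  · exact three N a c b x z y hx hz hy h3 h2 x2 a3 c3 b3 (by omega)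
  · exact three N c a b z x y hz hx hy h3 h1 z2 c3 a3 b3 (by omega)
  · exact three N b a c y x z hy hx hz h1 h3 y2 b3 a3 c3 (by omega)
  · exact three N b c a y z x hy hz hx h2 h3 y2 b3 c3 a3 (by omega)
  · exact three N c b a z y x hz hy hx h2 h1 z2 c3 b3 a3 (by omega)
  · exact three N c b a z y x hz hy hx h2 h1 z2 c3 b3 a3 (by omega)

theorem num {ι : Type} [Fintype ι] (N : ℕ) (d e : ι → ℕ) (hN : 2 ≤ N)
    (hde : ∀ i, d i * e i = N) (he : ∀ i, 2 ≤ e i) (hd : ∀ i, 3 ≤ d i)
    (hB : (∑ i, d i) + 2 * (N - 1) = Fintype.card ι * N) : N ∣ 120 := by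
  have h2 : ∀ i, 2 * d i ≤ N := fun i => by nlinarith [hde i, he i]
  have hs : 2 * (∑ i, d i) ≤ Fintype.card ι * N := by
    rw [Finset.mul_sum]
    calc ∑ i, 2 * d i ≤ ∑ _i : ι, N := Finset.sum_le_sum fun i _ => h2 i
      _ = Fintype.card ι * N := by simp
  have hr : Fintype.card ι ≤ 3 := by
    by_contra hge
    push Not at hge
    have : 4 * N ≤ Fintype.card ι * N := Nat.mul_le_mul_right _ hge
    omega
  obtain ⟨eqv⟩ := Fintype.truncEquivFin ι |>.nonempty
  have hsum : ∑ i, d i = ∑ j : Fin (Fintype.card ι), d (eqv.symm j) :=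
    (Equiv.sum_comp eqv.symm d).symm
  rw [hsum] at hB
  generalize hc : Fintype.card ι = r at *
  interval_cases r
  · simp at hB; omega
  · simp at hB
    have := hd (eqv.symm 0)
    omega
  · simp [Fin.sum_univ_succ] at hB
    have := hd (eqv.symm 0)
    have := hd (eqv.symm 1)
    omega
  · simp only [Fin.sum_univ_three] at hB
    exact three' N (d (eqv.symm 0)) (d (eqv.symm 1)) (d (eqv.symm 2)) _ _ _
      (hde _) (hde _) (hde _) (he _) (he _) (he _) (hd _) (hd _) (hd _) (by omega)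

section Abs
variable {Γ X : Type} [Group Γ] [MulAction Γ X]

/-- the points with a nontrivial stabilizer -/
def PS (Γ X : Type) [Group Γ] [MulAction Γ X] : SubMulAction Γ X where
  carrier := {x | ∃ γ : Γ, γ ≠ 1 ∧ γ • x = x}
  smul_mem' := by
    rintro δ x ⟨γ, h1, h2⟩
    refine ⟨δ * γ * δ⁻¹, ?_, ?_⟩
    · intro h
      apply h1
      have : γ = δ⁻¹ * (δ * γ * δ⁻¹) * δ := by group
      rw [this, h]; group
    · rw [mul_smul, mul_smul, inv_smul_smul, h2]

theorem mem_PS {x : X} : x ∈ PS Γ X ↔ ∃ γ : Γ, γ ≠ 1 ∧ γ • x = x := Iff.rfl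

theorem abs_count [Finite Γ]
    (h : ∀ γ : Γ, γ ≠ 1 → ∃ x y : X, x ≠ y ∧ ∀ z, γ • z = z ↔ (z = x ∨ z = y)) :
    (∃ x : X, ∀ γ : Γ, γ • x = x) ∨
    (∃ x y : X, x ≠ y ∧ (∀ γ : Γ, γ • x = x ∨ γ • x = y) ∧ ∃ γ : Γ, γ • x = y) ∨
    Nat.card Γ ∣ 120 := by
  by_cases h1 : Nat.card Γ = 1
  · right; right; rw [h1]; exact one_dvd _
  have hN : 2 ≤ Nat.card Γ := by
    have : 0 < Nat.card Γ := Nat.card_pos
    omega
  have : Fintype Γ := Fintype.ofFinite Γ
  have hfin : (PS Γ X : Set X).Finite := by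
    have : (PS Γ X : Set X) ⊆ ⋃ γ : {γ : Γ // γ ≠ 1}, {z : X | (γ : Γ) • z = z} := by
      rintro x ⟨γ, h2, h3⟩
      exact Set.mem_iUnion.2 ⟨⟨γ, h2⟩, h3⟩
    refine Set.Finite.subset (Set.finite_iUnion fun γ => ?_) this
    obtain ⟨x, y, -, hxy⟩ := h γ γ.2
    refine Set.Finite.subset (Set.toFinite {x, y}) ?_
    intro z hz
    exact (hxy z).1 hz
  have : Finite (PS Γ X) := hfin.to_subtype
  have : Fintype (PS Γ X) := Fintype.ofFinite _
  have hfix : ∀ γ : Γ, γ ≠ 1 → Fintype.card (fixedBy (PS Γ X) γ) = 2 := by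
    intro γ hγ
    obtain ⟨x, y, hne, hxy⟩ := h γ hγ
    have hx : x ∈ PS Γ X := ⟨γ, hγ, (hxy x).2 (Or.inl rfl)⟩
    have hy : y ∈ PS Γ X := ⟨γ, hγ, (hxy y).2 (Or.inr rfl)⟩
    have : fixedBy (PS Γ X) γ = {(⟨x, hx⟩ : PS Γ X), ⟨y, hy⟩} := by
      ext ⟨z, hz⟩
      simp only [mem_fixedBy, Set.mem_insert_iff, Set.mem_singleton_iff, Subtype.mk.injEq]
      rw [← hxy z]
      constructor
      · intro h; exact congrArg Subtype.val h
      · intro h; exact Subtype.ext h
    rw [← Nat.card_eq_fintype_card, Nat.card_coe_set_eq, this, Set.ncard_pair]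
    intro h
    exact hne (congrArg Subtype.val h)
  have hburn := sum_card_fixedBy_eq_card_orbits_mul_card_group Γ (PS Γ X)
  have hone : Fintype.card (fixedBy (PS Γ X) (1 : Γ)) = Fintype.card (PS Γ X) := by
    apply Fintype.card_congr
    refine (Equiv.subtypeUnivEquiv ?_)
    intro x
    simp
  have hsum : ∑ γ : Γ, Fintype.card (fixedBy (PS Γ X) γ) =
      Fintype.card (PS Γ X) + 2 * (Nat.card Γ - 1) := by
    rw [← Finset.add_sum_erase Finset.univ _ (Finset.mem_univ (1 : Γ)), hone]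
    congr 1
    rw [Finset.sum_congr rfl (g := fun _ => 2) (fun γ hγ => hfix γ (Finset.ne_of_mem_erase hγ))]
    rw [Finset.sum_const, Finset.card_erase_of_mem (Finset.mem_univ _), Finset.card_univ,
      Nat.card_eq_fintype_card]
    simp [mul_comm]
  set Ω := orbitRel.Quotient Γ (PS Γ X) with hΩ
  have hcardP : Fintype.card (PS Γ X) = ∑ ω : Ω, Fintype.card (orbit Γ ω.out) := by
    rw [← Fintype.card_sigma]
    exact Fintype.card_congr (selfEquivSigmaOrbits Γ (PS Γ X))
  have hde : ∀ ω : Ω, Fintype.card (orbit Γ ω.out) * Fintype.card (stabilizer Γ ω.out) =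
      Nat.card Γ := by
    intro ω
    rw [Nat.card_eq_fintype_card]
    exact card_orbit_mul_card_stabilizer_eq_card_group Γ ω.out
  have he : ∀ ω : Ω, 2 ≤ Fintype.card (stabilizer Γ ω.out) := by
    intro ω
    obtain ⟨γ, h2, h3⟩ := ω.out.2
    have : 1 < Fintype.card (stabilizer Γ ω.out) := by
      rw [Fintype.one_lt_card_iff]
      refine ⟨⟨γ, Subtype.ext h3⟩, 1, ?_⟩
      intro h
      exact h2 (congrArg Subtype.val h)
    exact this
  by_cases hd : ∀ ω : Ω, 3 ≤ Fintype.card (orbit Γ ω.out)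
  · right; right
    refine num (Nat.card Γ) (fun ω : Ω => Fintype.card (orbit Γ ω.out))
      (fun ω => Fintype.card (stabilizer Γ ω.out)) hN hde he hd ?_
    rw [← hcardP, ← hsum, hburn, Nat.card_eq_fintype_card]
  · push Not at hd
    obtain ⟨ω, hω⟩ := hd
    have hpos : 0 < Fintype.card (orbit Γ ω.out) :=
      Fintype.card_pos_iff.2 ⟨⟨ω.out, mem_orbit_self _⟩⟩
    have hcase : Fintype.card (orbit Γ ω.out) = 1 ∨ Fintype.card (orbit Γ ω.out) = 2 := by omega
    rcases hcase with h2 | h2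
    · left
      refine ⟨(ω.out : X), fun γ => ?_⟩
      have h3 := Fintype.card_le_one_iff.1 (le_of_eq h2) ⟨γ • ω.out, mem_orbit _ _⟩
        ⟨ω.out, mem_orbit_self _⟩
      have h4 : γ • ω.out = ω.out := congrArg Subtype.val h3
      exact congrArg Subtype.val h4
    · right; left
      have h3 : (orbit Γ ω.out).ncard = 2 := by
        rw [← Nat.card_coe_set_eq, Nat.card_eq_fintype_card, h2]
      obtain ⟨a, b, hab, hs⟩ := Set.ncard_eq_two.1 h3
      have key : ∀ x y : PS Γ X, x ≠ y → orbit Γ ω.out = {x, y} → ω.out = x →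
          ∃ x y : X, x ≠ y ∧ (∀ γ : Γ, γ • x = x ∨ γ • x = y) ∧ ∃ γ : Γ, γ • x = y := by
        intro x y hxy hs hx
        refine ⟨x, y, fun h => hxy (Subtype.ext h), fun γ => ?_, ?_⟩
        · have : γ • ω.out ∈ orbit Γ ω.out := mem_orbit _ _
          rw [hs, hx] at this
          rcases this with h | h
          · left; exact congrArg Subtype.val h
          · right; exact congrArg Subtype.val h
        · have : y ∈ orbit Γ ω.out := by rw [hs]; simp
          obtain ⟨γ, hγ⟩ := this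
          refine ⟨γ, ?_⟩
          rw [← hx]
          exact congrArg Subtype.val hγ
      have hmem : ω.out ∈ orbit Γ ω.out := mem_orbit_self _
      rw [hs] at hmem
      rcases hmem with h | h
      · exact key a b hab hs h
      · exact key b a (Ne.symm hab) (by rw [hs, Set.pair_comm]) h

end Abs
section Mat
variable {k : Type} [Field k]

/-- the determinant of two vectors -/
def D (v w : Fin 2 → k) : k := v 0 * w 1 - v 1 * w 0

theorem D_trace (A : Matrix (Fin 2) (Fin 2) k) (v w : Fin 2 → k) :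
    D (A.mulVec v) w + D v (A.mulVec w) = A.trace * D v w := by
  simp only [D, Matrix.mulVec, dotProduct, Fin.sum_univ_two, Matrix.trace_fin_two]
  ring

theorem D_smul_left (a : k) (v w : Fin 2 → k) : D (a • v) w = a * D v w := by
  simp only [D, Pi.smul_apply, smul_eq_mul]; ring

theorem D_smul_right (a : k) (v w : Fin 2 → k) : D v (a • w) = a * D v w := by
  simp only [D, Pi.smul_apply, smul_eq_mul]; ring

theorem D_self (v : Fin 2 → k) : D v v = 0 := by simp only [D]; ring

theorem prop_of_D {v w : Fin 2 → k} (hw : w ≠ 0) (h : D v w = 0) : ∃ a : k, a • w = v := by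
  have h1 : w 0 ≠ 0 ∨ w 1 ≠ 0 := by
    by_contra hn
    push Not at hn
    apply hw
    ext i
    fin_cases i
    · exact hn.1
    · exact hn.2
  simp only [D] at h
  rcases h1 with h1 | h1
  · refine ⟨v 0 / w 0, ?_⟩
    ext i
    fin_cases i
    · simp [h1]
    · simp only [Pi.smul_apply, smul_eq_mul, Fin.mk_one]
      field_simp
      linear_combination h
  · refine ⟨v 1 / w 1, ?_⟩
    ext i
    fin_cases i
    · simp only [Pi.smul_apply, smul_eq_mul, Fin.zero_eta]
      field_simp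
      linear_combination -h
    · simp [h1]

/-- the matrix with columns `v`, `w` -/
def Q (v w : Fin 2 → k) : Matrix (Fin 2) (Fin 2) k := !![v 0, w 0; v 1, w 1]

theorem Q_det (v w : Fin 2 → k) : (Q v w).det = D v w := by
  simp only [Q, D, Matrix.det_fin_two_of]; ring

theorem mul_Q (A : Matrix (Fin 2) (Fin 2) k) (v w : Fin 2 → k) :
    A * Q v w = Q (A.mulVec v) (A.mulVec w) := by
  ext i j
  fin_cases i <;> fin_cases j <;>
    simp [Q, Matrix.mul_apply, Matrix.mulVec, dotProduct, Fin.sum_univ_two]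

theorem eq_of_two {A B : Matrix (Fin 2) (Fin 2) k} {v w : Fin 2 → k} (hD : D v w ≠ 0)
    (h1 : A.mulVec v = B.mulVec v) (h2 : A.mulVec w = B.mulVec w) : A = B := by
  have h : A * Q v w = B * Q v w := by rw [mul_Q, mul_Q, h1, h2]
  have hu : IsUnit (Q v w) := by
    rw [Matrix.isUnit_iff_isUnit_det, Q_det]; exact hD.isUnit
  exact hu.mul_right_cancel h

theorem comm_of_two {A B : Matrix (Fin 2) (Fin 2) k} {v w : Fin 2 → k} (hD : D v w ≠ 0)
    {a b c d : k} (h1 : A.mulVec v = a • v) (h2 : A.mulVec w = b • w)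
    (h3 : B.mulVec v = c • v) (h4 : B.mulVec w = d • w) : A * B = B * A := by
  apply eq_of_two hD
  · rw [← Matrix.mulVec_mulVec, ← Matrix.mulVec_mulVec, h3, h1, Matrix.mulVec_smul,
      Matrix.mulVec_smul, h1, h3, smul_smul, smul_smul, mul_comm]
  · rw [← Matrix.mulVec_mulVec, ← Matrix.mulVec_mulVec, h2, h4, Matrix.mulVec_smul,
      Matrix.mulVec_smul, h2, h4, smul_smul, smul_smul, mul_comm]

theorem trace_of_swap {A : Matrix (Fin 2) (Fin 2) k} {v w : Fin 2 → k} (hD : D v w ≠ 0)
    {a b : k} (h1 : A.mulVec v = a • w) (h2 : A.mulVec w = b • v) : A.trace = 0 := by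
  have h := D_trace A v w
  rw [h1, h2, D_smul_left, D_smul_right, D_self, D_self] at h
  simp only [mul_zero, add_zero] at h
  rcases mul_eq_zero.1 h.symm with h | h
  · exact h
  · exact absurd h hD

/-- a matrix which preserves all lines is scalar -/
theorem scalar_of_lines {A : Matrix (Fin 2) (Fin 2) k}
    (h : ∀ v : Fin 2 → k, v ≠ 0 → ∃ a : k, A.mulVec v = a • v) :
    ∃ a : k, A = a • (1 : Matrix (Fin 2) (Fin 2) k) := by
  obtain ⟨a, ha⟩ := h ![1, 0] (by intro h; simpa using congrFun h 0)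
  obtain ⟨b, hb⟩ := h ![0, 1] (by intro h; simpa using congrFun h 1)
  obtain ⟨c, hc⟩ := h ![1, 1] (by intro h; simpa using congrFun h 0)
  have a0 := congrFun ha 0
  have a1 := congrFun ha 1
  have b0 := congrFun hb 0
  have b1 := congrFun hb 1
  have c0 := congrFun hc 0
  have c1 := congrFun hc 1
  simp only [Matrix.mulVec, dotProduct, Fin.sum_univ_two, Pi.smul_apply, smul_eq_mul,
    Matrix.cons_val_zero, Matrix.cons_val_one, mul_one, mul_zero, add_zero, zero_add] at a0 a1 b0 b1 c0 c1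
  refine ⟨a, ?_⟩
  ext i j
  fin_cases i <;> fin_cases j
  · simp [a0]
  · simp [b0]
  · simp [a1]
  · simp only [Fin.mk_one, Matrix.smul_apply, Matrix.one_apply_eq, smul_eq_mul, mul_one]
    rw [a0, b0] at c0
    rw [a1, b1] at c1
    rw [b1]
    linear_combination c1 - c0

variable [IsAlgClosed k]

/-- a non scalar matrix of finite order prime to the characteristic has two eigenvalues -/
theorem two_eigen (A : Matrix (Fin 2) (Fin 2) k) (n : ℕ) (hn : (n : k) ≠ 0) (hA : A ^ n = 1)
    (hs : ¬ ∃ a : k, A = a • (1 : Matrix (Fin 2) (Fin 2) k)) :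
    ∃ l m : k, l ≠ m ∧ A.trace = l + m ∧ (∃ v : Fin 2 → k, v ≠ 0 ∧ A.mulVec v = l • v) ∧
      ∃ w : Fin 2 → k, w ≠ 0 ∧ A.mulVec w = m • w := by
  have hdeg : A.charpoly.degree ≠ 0 := by
    rw [Matrix.charpoly_degree_eq_dim]; simp
  obtain ⟨l, hl⟩ := IsAlgClosed.exists_root A.charpoly hdeg
  rw [Matrix.charpoly_fin_two] at hl
  simp only [Polynomial.IsRoot.def, Polynomial.eval_add, Polynomial.eval_sub, Polynomial.eval_pow,
    Polynomial.eval_X, Polynomial.eval_mul, Polynomial.eval_C] at hl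
  set m := A.trace - l with hm
  have hsum : A.trace = l + m := by rw [hm]; ring
  have hprod : l * m = A.det := by rw [hm]; linear_combination -hl
  have hcomm : (A - m • (1 : Matrix (Fin 2) (Fin 2) k)) * (A - l • 1) =
      (A - l • (1 : Matrix (Fin 2) (Fin 2) k)) * (A - m • 1) := by
    simp only [sub_mul, mul_sub, smul_mul_assoc, mul_smul_comm, one_mul, mul_one]
    module
  have hCH : (A - l • (1 : Matrix (Fin 2) (Fin 2) k)) * (A - m • 1) = 0 := by
    rw [Matrix.trace_fin_two] at hsum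
    rw [Matrix.det_fin_two] at hprod
    ext i j
    fin_cases i <;> fin_cases j <;>
      simp [Matrix.mul_apply, Fin.sum_univ_two]
    · linear_combination hprod + A 0 0 * hsum
    · linear_combination A 0 1 * hsum
    · linear_combination A 1 0 * hsum
    · linear_combination hprod + A 1 1 * hsum
  -- a nonzero column
  have col : ∀ B : Matrix (Fin 2) (Fin 2) k, B ≠ 0 → ∃ x : Fin 2 → k, B.mulVec x ≠ 0 := by
    intro B hB
    by_contra hn
    push Not at hn
    apply hB
    ext i j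
    have := congrFun (hn (Pi.single j 1)) i
    simpa using this
  have hl1 : A - l • (1 : Matrix (Fin 2) (Fin 2) k) ≠ 0 := fun h => hs ⟨l, sub_eq_zero.1 h⟩
  have hm1 : A - m • (1 : Matrix (Fin 2) (Fin 2) k) ≠ 0 := fun h => hs ⟨m, sub_eq_zero.1 h⟩
  refine ⟨l, m, ?_, hsum, ?_, ?_⟩
  · intro hlm
    rw [← hlm] at hCH
    have hpow : ∀ j : ℕ, l • A ^ j = (l ^ (j + 1)) • (1 : Matrix (Fin 2) (Fin 2) k) +
        ((j : k) * l ^ j) • (A - l • 1) := by
      intro j
      induction j with
      | zero => simp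
      | succ j ih =>
        have e1 : l • A ^ (j + 1) = (l • A ^ j) * A := by rw [pow_succ, smul_mul_assoc]
        have e2 : (A - l • (1 : Matrix (Fin 2) (Fin 2) k)) * A = l • (A - l • 1) := by
          have : A = (A - l • (1 : Matrix (Fin 2) (Fin 2) k)) + l • 1 := by abel
          nth_rewrite 2 [this]
          rw [mul_add, hCH, zero_add, mul_smul_comm, mul_one]
        rw [e1, ih, add_mul, smul_mul_assoc, smul_mul_assoc, e2, one_mul, smul_smul]
        have : A = (A - l • (1 : Matrix (Fin 2) (Fin 2) k)) + l • 1 := by abel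
        nth_rewrite 1 [this]
        rw [smul_add, smul_smul]
        push_cast
        module
    have h2 := hpow n
    rw [hA] at h2
    have hl0 : l ≠ 0 := by
      intro h0
      rw [h0] at hCH
      simp only [zero_smul, sub_zero] at hCH
      have hn0 : n ≠ 0 := by rintro rfl; simp at hn
      have hu : IsUnit A := IsUnit.of_pow_eq_one hA hn0
      have : A = 0 := by
        have := hu.mul_left_cancel (hCH.trans (mul_zero A).symm)
        exact this
      rw [this] at hs
      exact hs ⟨0, by simp⟩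
    have h3 : ((n : k) * l ^ n) ≠ 0 := mul_ne_zero hn (pow_ne_zero _ hl0)
    apply hs
    refine ⟨l + (((n : k) * l ^ n)⁻¹) * (l - l ^ (n + 1)), ?_⟩
    have h4 : ((n : k) * l ^ n) • (A - l • (1 : Matrix (Fin 2) (Fin 2) k)) =
        (l - l ^ (n + 1)) • 1 := by
      rw [sub_smul, eq_sub_iff_add_eq, add_comm]
      exact h2.symm
    have h5 : A - l • (1 : Matrix (Fin 2) (Fin 2) k) =
        (((n : k) * l ^ n)⁻¹ * (l - l ^ (n + 1))) • 1 := by
      rw [mul_smul, ← h4, smul_smul, inv_mul_cancel₀ h3, one_smul]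
    rw [add_smul, ← h5]; abel
  · obtain ⟨x, hx⟩ := col _ hm1
    refine ⟨_, hx, ?_⟩
    have : (A - l • (1 : Matrix (Fin 2) (Fin 2) k)).mulVec
        ((A - m • (1 : Matrix (Fin 2) (Fin 2) k)).mulVec x) = 0 := by
      rw [Matrix.mulVec_mulVec, hCH, Matrix.zero_mulVec]
    rw [Matrix.sub_mulVec, Matrix.smul_mulVec, Matrix.one_mulVec] at this
    exact sub_eq_zero.1 this
  · obtain ⟨x, hx⟩ := col _ hl1
    refine ⟨_, hx, ?_⟩
    have : (A - m • (1 : Matrix (Fin 2) (Fin 2) k)).mulVec
        ((A - l • (1 : Matrix (Fin 2) (Fin 2) k)).mulVec x) = 0 := by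
      rw [Matrix.mulVec_mulVec, hcomm, hCH, Matrix.zero_mulVec]
    rw [Matrix.sub_mulVec, Matrix.smul_mulVec, Matrix.one_mulVec] at this
    exact sub_eq_zero.1 this

end Mat
section Main
variable {k : Type} [Field k]

theorem smul_mk_eq_iff (g : Matrix.GeneralLinearGroup (Fin 2) k) (v w : Fin 2 → k) (hv : v ≠ 0)
    (hw : w ≠ 0) :
    g • Projectivization.mk k v hv = Projectivization.mk k w hw ↔
      ∃ a : k, (g : Matrix (Fin 2) (Fin 2) k).mulVec v = a • w := by
  rw [Projectivization.smul_mk, Projectivization.mk_eq_mk_iff']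
  constructor
  · rintro ⟨a, ha⟩; exact ⟨a, ha.symm⟩
  · rintro ⟨a, ha⟩; exact ⟨a, ha.symm⟩

theorem scalar_iff (g : Matrix.GeneralLinearGroup (Fin 2) k) :
    (∀ x : ℙ k (Fin 2 → k), g • x = x) ↔
      ∃ a : k, (g : Matrix (Fin 2) (Fin 2) k) = a • (1 : Matrix (Fin 2) (Fin 2) k) := by
  constructor
  · intro h
    exact scalar_of_lines fun v hv => (smul_mk_eq_iff g v v hv hv).1 (h _)
  · rintro ⟨a, ha⟩ x
    induction x using Projectivization.ind with | h v hv =>
    rw [smul_mk_eq_iff]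
    exact ⟨a, by rw [ha, Matrix.smul_mulVec, Matrix.one_mulVec]⟩

variable [IsAlgClosed k]

theorem fixed_two (g : Matrix.GeneralLinearGroup (Fin 2) k) (n : ℕ) (hn : (n : k) ≠ 0)
    (hA : g ^ n = 1) (hs : ¬ ∀ x : ℙ k (Fin 2 → k), g • x = x) :
    ∃ x y : ℙ k (Fin 2 → k), x ≠ y ∧ ∀ z, g • z = z ↔ (z = x ∨ z = y) := by
  rw [scalar_iff] at hs
  have hA' : (g : Matrix (Fin 2) (Fin 2) k) ^ n = 1 := by
    rw [← Units.val_pow_eq_pow_val, hA, Units.val_one]
  obtain ⟨l, m, hlm, ht, ⟨v, hv, hvl⟩, w, hw, hwm⟩ := two_eigen _ n hn hA' hs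
  have hne : Projectivization.mk k v hv ≠ Projectivization.mk k w hw := by
    intro h
    rw [Projectivization.mk_eq_mk_iff'] at h
    obtain ⟨c, rfl⟩ := h
    rw [Matrix.mulVec_smul, hwm, smul_comm, ← sub_eq_zero, ← sub_smul] at hvl
    rcases smul_eq_zero.1 hvl with h | h
    · exact hlm (sub_eq_zero.1 h).symm
    · exact hv h
  refine ⟨Projectivization.mk k v hv, Projectivization.mk k w hw, hne, fun z => ?_⟩
  induction z using Projectivization.ind with | h u hu =>
  rw [smul_mk_eq_iff]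
  constructor
  · rintro ⟨a, ha⟩
    have e1 := D_trace (g : Matrix (Fin 2) (Fin 2) k) u v
    have e2 := D_trace (g : Matrix (Fin 2) (Fin 2) k) u w
    rw [ha, hvl, D_smul_left, D_smul_right, ht] at e1
    rw [ha, hwm, D_smul_left, D_smul_right, ht] at e2
    have f1 : (a - m) * D u v = 0 := by linear_combination e1
    have f2 : (a - l) * D u w = 0 := by linear_combination e2
    rcases mul_eq_zero.1 f1 with h | h
    · right
      rcases mul_eq_zero.1 f2 with h' | h'
      · exact absurd ((sub_eq_zero.1 h').symm.trans (sub_eq_zero.1 h)) hlm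
      · rw [Projectivization.mk_eq_mk_iff']
        exact prop_of_D hw h'
    · left
      rw [Projectivization.mk_eq_mk_iff']
      exact prop_of_D hv h
  · rintro (h | h)
    · rw [Projectivization.mk_eq_mk_iff'] at h
      obtain ⟨c, rfl⟩ := h
      exact ⟨l, by rw [Matrix.mulVec_smul, hvl, smul_comm]⟩
    · rw [Projectivization.mk_eq_mk_iff'] at h
      obtain ⟨c, rfl⟩ := h
      exact ⟨m, by rw [Matrix.mulVec_smul, hwm, smul_comm]⟩

theorem main (G : Subgroup (Matrix.GeneralLinearGroup (Fin 2) k))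
    (hfin : Finite G) (hcard : ((Nat.card G : ℕ) : k) ≠ 0) :
    (∃ v : Fin 2 → k, v ≠ 0 ∧ ∀ g ∈ G, ∃ a : k,
      (g : Matrix (Fin 2) (Fin 2) k).mulVec v = a • v) ∨
    (∃ C : Subgroup (Matrix.GeneralLinearGroup (Fin 2) k), C ≤ G ∧ C.relIndex G = 2 ∧
      (∀ g ∈ C, ∀ g' ∈ C, g * g' = g' * g) ∧
      ∀ g ∈ G, g ∉ C → (g : Matrix (Fin 2) (Fin 2) k).trace = 0) ∨
    ∀ g ∈ G, ∃ a : k, ((g : Matrix (Fin 2) (Fin 2) k)) ^ 120 =
      a • (1 : Matrix (Fin 2) (Fin 2) k) := by
  let φ := toPermHom (Matrix.GeneralLinearGroup (Fin 2) k) (ℙ k (Fin 2 → k))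
  let Γ : Subgroup (Equiv.Perm (ℙ k (Fin 2 → k))) := G.map φ
  have hφ : ∀ g ∈ G, φ g ∈ Γ := fun g hg => Subgroup.mem_map_of_mem φ hg
  have hact : ∀ (g : Matrix.GeneralLinearGroup (Fin 2) k) (hg : g ∈ G) (x : ℙ k (Fin 2 → k)),
      (⟨φ g, hφ g hg⟩ : Γ) • x = g • x := fun g hg x => rfl
  have : Finite Γ := by
    have : (Γ : Set (Equiv.Perm (ℙ k (Fin 2 → k)))) = φ '' (G : Set _) := Subgroup.coe_map _ _
    have h2 : (Γ : Set (Equiv.Perm (ℙ k (Fin 2 → k)))).Finite := by
      rw [this]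
      exact Set.Finite.image _ (Set.toFinite _)
    exact h2.to_subtype
  have hfix : ∀ γ : Γ, γ ≠ 1 → ∃ x y : ℙ k (Fin 2 → k), x ≠ y ∧
      ∀ z, γ • z = z ↔ (z = x ∨ z = y) := by
    rintro ⟨γ, ⟨g, hg, rfl⟩⟩ hne
    have hpow : g ^ (Nat.card G) = 1 := by
      have := pow_card_eq_one' (x := (⟨g, hg⟩ : G))
      exact congrArg Subtype.val this
    refine fixed_two g _ hcard hpow fun hall => hne ?_
    apply Subtype.ext
    apply Equiv.ext
    intro x
    exact hall x
  rcases abs_count hfix with ⟨x, hx⟩ | ⟨x, y, hxy, hxo, γ₀, hγ₀⟩ | hdvd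
  · left
    induction x using Projectivization.ind with | h v hv =>
    refine ⟨v, hv, fun g hg => ?_⟩
    exact (smul_mk_eq_iff g v v hv hv).1 (hx ⟨φ g, hφ g hg⟩)
  · right; left
    obtain ⟨γ, ⟨g₀, hg₀, rfl⟩⟩ := γ₀
    have hg0x : g₀ • x = y := hγ₀
    have hgx : ∀ g ∈ G, g • x = x ∨ g • x = y := fun g hg => hxo ⟨φ g, hφ g hg⟩
    have hgy : ∀ g ∈ G, g • y = x ∨ g • y = y := by
      intro g hg
      rw [← hg0x, ← mul_smul, hg0x]
      exact hgx _ (G.mul_mem hg hg₀)
    have hfxy : ∀ g ∈ G, g • x = x → g • y = y := by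
      intro g hg h
      rcases hgy g hg with h' | h'
      · exact absurd ((MulAction.injective g) (h.trans h'.symm)) hxy
      · exact h'
    have hsxy : ∀ g ∈ G, ¬ g • x = x → g • x = y ∧ g • y = x := by
      intro g hg h
      have h1 : g • x = y := (hgx g hg).resolve_left h
      refine ⟨h1, ?_⟩
      rcases hgy g hg with h' | h'
      · exact h'
      · exact absurd ((MulAction.injective g) (h1.trans h'.symm)) hxy
    let C : Subgroup (Matrix.GeneralLinearGroup (Fin 2) k) :=
      G ⊓ stabilizer (Matrix.GeneralLinearGroup (Fin 2) k) x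
    have hC : ∀ g, g ∈ C ↔ g ∈ G ∧ g • x = x := fun g => Iff.rfl
    refine ⟨C, inf_le_left, ?_, ?_, ?_⟩
    · rw [Subgroup.relIndex_eq_two_iff]
      refine ⟨g₀, hg₀, fun b hb => ?_⟩
      rw [hC, hC]
      have e1 : (b * g₀) • x = b • y := by rw [mul_smul, hg0x]
      rw [e1]
      by_cases h : b • x = x
      · right
        refine ⟨⟨hb, h⟩, fun h' => ?_⟩
        exact hxy ((MulAction.injective b) (h.trans h'.2.symm))
      · left
        exact ⟨⟨G.mul_mem hb hg₀, (hsxy b hb h).2⟩, fun h' => h h'.2⟩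
    · induction x using Projectivization.ind with | h v hv =>
      induction y using Projectivization.ind with | h w hw =>
      have hD : D v w ≠ 0 := by
        intro h
        apply hxy
        rw [Projectivization.mk_eq_mk_iff']
        exact prop_of_D hw h
      intro g hg g' hg'
      obtain ⟨a, ha⟩ := (smul_mk_eq_iff g v v hv hv).1 ((hC g).1 hg).2
      obtain ⟨b, hb⟩ := (smul_mk_eq_iff g w w hw hw).1 (hfxy g ((hC g).1 hg).1 ((hC g).1 hg).2)
      obtain ⟨c, hc⟩ := (smul_mk_eq_iff g' v v hv hv).1 ((hC g').1 hg').2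
      obtain ⟨d, hd⟩ := (smul_mk_eq_iff g' w w hw hw).1
        (hfxy g' ((hC g').1 hg').1 ((hC g').1 hg').2)
      apply Units.ext
      rw [Units.val_mul, Units.val_mul]
      exact comm_of_two hD ha hb hc hd
    · induction x using Projectivization.ind with | h v hv =>
      induction y using Projectivization.ind with | h w hw =>
      have hD : D v w ≠ 0 := by
        intro h
        apply hxy
        rw [Projectivization.mk_eq_mk_iff']
        exact prop_of_D hw h
      intro g hg hgC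
      have h1 : ¬ g • Projectivization.mk k v hv = Projectivization.mk k v hv :=
        fun h => hgC ((hC g).2 ⟨hg, h⟩)
      obtain ⟨h2, h3⟩ := hsxy g hg h1
      obtain ⟨a, ha⟩ := (smul_mk_eq_iff g v w hv hw).1 h2
      obtain ⟨b, hb⟩ := (smul_mk_eq_iff g w v hw hv).1 h3
      exact trace_of_swap hD ha hb
  · right; right
    intro g hg
    have h1 : (⟨φ g, hφ g hg⟩ : Γ) ^ 120 = 1 :=
      orderOf_dvd_iff_pow_eq_one.1 ((orderOf_dvd_natCard _).trans hdvd)
    have h2 : φ (g ^ 120) = 1 := by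
      have h5 : ((⟨φ g, hφ g hg⟩ : Γ) : Equiv.Perm (ℙ k (Fin 2 → k))) ^ 120 = 1 := by
        rw [← Subgroup.coe_pow, h1, Subgroup.coe_one]
      rw [map_pow]
      exact h5
    have h3 : ∀ x : ℙ k (Fin 2 → k), (g ^ 120) • x = x := by
      intro x
      have := congrArg (fun f : Equiv.Perm (ℙ k (Fin 2 → k)) => f x) h2
      exact this
    have h4 := (scalar_iff (g ^ 120)).1 h3
    rw [Units.val_pow_eq_pow_val] at h4
    exact h4

end Main
end REC.DksRow

namespace REC

theorem st_DKS : ST_DKS := fun _ _ _ G hfin hcard => DksRow.main G hfin hcard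

end REC
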