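import Pool.Agent.Helper57.REC.Stmts6b

/-! Reciprocity, part 6b, row LMD: integral matrices with bounded discriminant. -/

set_option autoImplicit false

namespace REC

namespace LmdRow

/-- conjugate up to translation -/
def Rl (A A' : Matrix (Fin 2) (Fin 2) ℤ) : Prop :=
  ∃ (c : ℤ) (u : Matrix.GeneralLinearGroup (Fin 2) ℤ),
    (u : Matrix (Fin 2) (Fin 2) ℤ) * A = (A' + c • (1 : Matrix (Fin 2) (Fin 2) ℤ)) * u

theorem rl_trans {A A' A'' : Matrix (Fin 2) (Fin 2) ℤ} (h : Rl A A') (h' : Rl A' A'') : Rl A A'' := by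
  obtain ⟨c, u, hu⟩ := h
  obtain ⟨c', u', hu'⟩ := h'
  refine ⟨c + c', u' * u, ?_⟩
  have e : (u' : Matrix (Fin 2) (Fin 2) ℤ) * ((A' + c • (1 : Matrix (Fin 2) (Fin 2) ℤ)) * u) =
      (u' * A') * u + c • ((u' : Matrix (Fin 2) (Fin 2) ℤ) * u) := by
    rw [← mul_assoc, mul_add, Matrix.mul_smul, mul_one, add_mul, smul_mul_assoc]
  rw [Units.val_mul, mul_assoc, hu, e, hu', add_smul, ← add_assoc, add_mul, add_mul, add_mul,
    smul_mul_assoc, smul_mul_assoc, smul_mul_assoc, one_mul, one_mul, add_mul, smul_mul_assoc]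
  simp only [mul_assoc, one_mul]
  abel

theorem rl_of (A A' U : Matrix (Fin 2) (Fin 2) ℤ) (hU : IsUnit U.det) (h : U * A = A' * U) :
    Rl A A' := by
  refine ⟨0, Matrix.GeneralLinearGroup.mk'' U hU, ?_⟩
  rw [zero_smul, add_zero]
  exact h

theorem rl_U (a b c d k : ℤ) :
    Rl !![a, b; c, d] !![a + k * c, b - k * (a - d) - k ^ 2 * c; c, d - k * c] := by
  refine rl_of _ _ !![1, k; 0, 1] ?_ ?_
  · rw [Matrix.det_fin_two_of]; simp
  · ext i j
    fin_cases i <;> fin_cases j <;> simp [Matrix.mul_apply, Fin.sum_univ_two] <;> ring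

theorem rl_S (a b c d : ℤ) : Rl !![a, b; c, d] !![d, -c; -b, a] := by
  refine rl_of _ _ !![0, 1; -1, 0] ?_ ?_
  · rw [Matrix.det_fin_two_of]; simp
  · ext i j
    fin_cases i <;> fin_cases j <;> simp [Matrix.mul_apply, Fin.sum_univ_two]

theorem rl_shift (a b c d : ℤ) : Rl !![a, b; c, d] !![a - d, b; c, 0] := by
  refine ⟨d, 1, ?_⟩
  rw [Units.val_one, one_mul, mul_one]
  ext i j
  rw [Matrix.add_apply, Matrix.smul_apply, smul_eq_mul]
  fin_cases i <;> fin_cases j <;> simp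

/-- the finite set -/
noncomputable def TT (D : ℕ) : Finset (Matrix (Fin 2) (Fin 2) ℤ) :=
  (Finset.Icc (-(D : ℤ)) D ×ˢ Finset.Icc (-(D : ℤ)) D ×ˢ Finset.Icc (-(D : ℤ)) D).image
    fun p => !![p.1, p.2.1; p.2.2, 0]

theorem mem_TT (D : ℕ) (x b c : ℤ) (hx : |x| ≤ D) (hb : |b| ≤ D) (hc : |c| ≤ D) :
    !![x, b; c, 0] ∈ TT D := by
  unfold TT
  rw [Finset.mem_image]
  refine ⟨(x, b, c), ?_, rfl⟩
  simp only [Finset.mem_product, Finset.mem_Icc]
  exact ⟨abs_le.1 hx, abs_le.1 hb, abs_le.1 hc⟩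

theorem red (x c : ℤ) (hc : c ≠ 0) : ∃ k : ℤ, |x + 2 * (k * c)| ≤ |c| := by
  have hm : 0 < 2 * |c| := by positivity
  have h1 := Int.emod_nonneg (x + |c|) hm.ne'
  have h2 := Int.emod_lt_of_pos (x + |c|) hm
  have h3 := Int.emod_add_mul_ediv (x + |c|) (2 * |c|)
  rcases abs_choice c with e | e
  · refine ⟨-((x + |c|) / (2 * |c|)), ?_⟩
    have e1 : x + 2 * (-((x + |c|) / (2 * |c|)) * c) = (x + |c|) % (2 * |c|) - |c| := by
      have : (x + |c|) / (2 * |c|) * c = |c| * ((x + |c|) / (2 * |c|)) := by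
        rw [← e]; simp only [abs_abs]; ring
      linear_combination (-1 : ℤ) * h3 - 2 * this
    rw [e1, abs_le]
    constructor <;> linarith
  · refine ⟨(x + |c|) / (2 * |c|), ?_⟩
    have e1 : x + 2 * ((x + |c|) / (2 * |c|) * c) = (x + |c|) % (2 * |c|) - |c| := by
      have h4 : c = -|c| := by rw [e]; ring
      have : (x + |c|) / (2 * |c|) * c = -(|c| * ((x + |c|) / (2 * |c|))) := by
        nth_rewrite 3 [h4]
        ring
      linear_combination (-1 : ℤ) * h3 + 2 * this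
    rw [e1, abs_le]
    constructor <;> linarith

theorem sq_le_imp (x : ℤ) (D : ℕ) (h : x ^ 2 ≤ D) : |x| ≤ D := by
  rcases eq_or_ne x 0 with rfl | hx
  · simp
  · have h1 : 1 ≤ |x| := Int.one_le_abs hx
    have h2 : |x| ^ 2 ≤ D := by rw [sq_abs]; exact h
    nlinarith

theorem main (D : ℕ) : ∀ (N : ℕ) (a b c d : ℤ), c.natAbs = N → (a - d) ^ 2 + 4 * (b * c) ≠ 0 →
    |(a - d) ^ 2 + 4 * (b * c)| ≤ (D : ℤ) → ∃ t ∈ TT D, Rl !![a, b; c, d] t := by
  intro N
  induction N using Nat.strong_induction_on with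
  | _ N ih =>
    intro a b c d hN h0 hD
    by_cases hc : c = 0
    · subst hc
      have hx : a - d ≠ 0 := by
        intro h
        apply h0
        rw [h]; ring
      have hD' : (a - d) ^ 2 ≤ D := by
        have e : (a - d) ^ 2 + 4 * (b * 0) = (a - d) ^ 2 := by ring
        rw [e, abs_of_nonneg (sq_nonneg _)] at hD
        exact hD
      have hx1 := sq_le_imp _ _ hD'
      have h1 := rl_U a b 0 d (b / (a - d))
      have h2 := Int.emod_nonneg b hx
      have h3 := Int.emod_lt_abs b hx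
      have h4 := Int.emod_add_mul_ediv b (a - d)
      have e1 : b - b / (a - d) * (a - d) - (b / (a - d)) ^ 2 * 0 = b % (a - d) := by
        linear_combination -h4
      have e2 : a + b / (a - d) * 0 = a := by ring
      have e3 : d - b / (a - d) * 0 = d := by ring
      rw [e1, e2, e3] at h1
      refine ⟨_, mem_TT D (a - d) (b % (a - d)) 0 hx1 ?_ (by simp), rl_trans h1 (rl_shift _ _ _ _)⟩
      rw [abs_of_nonneg h2]
      linarith
    · obtain ⟨k, hk⟩ := red (a - d) c hc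
      have h1 := rl_U a b c d k
      obtain ⟨a', ha'⟩ : ∃ a', a' = a + k * c := ⟨_, rfl⟩
      obtain ⟨d', hd'⟩ : ∃ d', d' = d - k * c := ⟨_, rfl⟩
      obtain ⟨b', hb'⟩ : ∃ b', b' = b - k * (a - d) - k ^ 2 * c := ⟨_, rfl⟩
      rw [← ha', ← hd', ← hb'] at h1
      have hk' : |a' - d'| ≤ |c| := by
        have e : a' - d' = a - d + 2 * (k * c) := by rw [ha', hd']; ring
        rw [e]; exact hk
      have hds : (a' - d') ^ 2 + 4 * (b' * c) = (a - d) ^ 2 + 4 * (b * c) := by
        rw [ha', hd', hb']; ring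
      by_cases hbc : |b'| < |c|
      · have h2 := rl_S a' b' c d'
        have hlt : (-b').natAbs < N := by
          rw [← hN]
          zify
          rw [abs_neg]
          exact hbc
        obtain ⟨t, ht, hR⟩ := ih _ hlt d' (-c) (-b') a' rfl (by
          have e : (d' - a') ^ 2 + 4 * (-c * -b') = (a' - d') ^ 2 + 4 * (b' * c) := by ring
          rw [e, hds]; exact h0) (by
          have e : (d' - a') ^ 2 + 4 * (-c * -b') = (a' - d') ^ 2 + 4 * (b' * c) := by ring
          rw [e, hds]; exact hD)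
        exact ⟨t, ht, rl_trans h1 (rl_trans h2 hR)⟩
      · rw [not_lt] at hbc
        rw [← hds] at hD
        have hc1 : 1 ≤ |c| := Int.one_le_abs hc
        have hx2 : (a' - d') ^ 2 ≤ |c| ^ 2 := by
          rw [← sq_abs (a' - d')]
          exact pow_le_pow_left₀ (abs_nonneg _) hk' 2
        have h4 : 4 * (|b'| * |c|) ≤ D + |c| ^ 2 := by
          have e : 4 * (|b'| * |c|) = |4 * (b' * c)| := by
            rw [abs_mul, abs_mul]; norm_num
          rw [e]
          have e2 : 4 * (b' * c) = ((a' - d') ^ 2 + 4 * (b' * c)) - (a' - d') ^ 2 := by ring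
          rw [e2]
          refine (abs_sub _ _).trans ?_
          rw [abs_of_nonneg (sq_nonneg (a' - d'))]
          linarith
        have h5 : |c| * |c| ≤ |b'| * |c| := mul_le_mul_of_nonneg_right hbc (abs_nonneg _)
        have h6 : 3 * |c| ^ 2 ≤ D := by nlinarith
        have h7 : |c| ≤ D := by nlinarith
        have h8 : |b'| ≤ |b'| * |c| := le_mul_of_one_le_right (abs_nonneg _) hc1
        have h9 : |b'| ≤ D := by nlinarith
        exact ⟨_, mem_TT D (a' - d') b' c (hk'.trans h7) h9 h7, rl_trans h1 (rl_shift _ _ _ _)⟩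

end LmdRow

theorem st_LMD : ST_LMD := by
  intro D
  refine ⟨LmdRow.TT D, fun A h0 hD => ?_⟩
  have e : A = !![A 0 0, A 0 1; A 1 0, A 1 1] := by
    ext i j
    fin_cases i <;> fin_cases j <;> rfl
  have ed : dsc A = (A 0 0 - A 1 1) ^ 2 + 4 * (A 0 1 * A 1 0) := by
    unfold dsc
    ring
  obtain ⟨t, ht, c, u, h⟩ := LmdRow.main D _ (A 0 0) (A 0 1) (A 1 0) (A 1 1) rfl (by rw [← ed]; exact h0)
    (by rw [← ed]; zify at hD; exact hD)
  exact ⟨t, ht, c, u, by rw [← e] at h; exact h⟩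

end REC
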