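import Pool.Agent.Helper57.REC.Stmts6b

/-! Reciprocity, part 6b, row MAT: matrices over `ℤ_l` with a given characteristic polynomial. -/

set_option autoImplicit false

namespace REC

namespace MatRow

variable {l : ℕ} [Fact l.Prime]

theorem isUnit_of {x : ℤ_[l]} (h : ¬ (l : ℤ_[l]) ∣ x) : IsUnit x := by
  by_contra hn
  exact h ((PadicInt.norm_lt_one_iff_dvd x).1 (PadicInt.not_isUnit_iff.1 hn))

theorem not_dvd_of {x : ℤ_[l]} (h : IsUnit x) : ¬ (l : ℤ_[l]) ∣ x := by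
  intro hd
  exact (PadicInt.not_isUnit_iff.2 ((PadicInt.norm_lt_one_iff_dvd x).2 hd)) h

/-- all entries of `A` minus a scalar are divisible by `c` -/
def Dv (c : ℤ_[l]) (A : Matrix (Fin 2) (Fin 2) ℤ_[l]) : Prop :=
  c ∣ A 0 1 ∧ c ∣ A 1 0 ∧ c ∣ A 0 0 - A 1 1

theorem exists_vec (X : Matrix (Fin 2) (Fin 2) ℤ_[l]) (h : ¬ Dv (l : ℤ_[l]) X) :
    ∃ x y : ℤ_[l], IsUnit (x * (X 1 0 * x + X 1 1 * y) - y * (X 0 0 * x + X 0 1 * y)) := by
  by_cases h1 : (l : ℤ_[l]) ∣ X 0 1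
  · by_cases h2 : (l : ℤ_[l]) ∣ X 1 0
    · have h3 : ¬ (l : ℤ_[l]) ∣ X 0 0 - X 1 1 := fun h3 => h ⟨h1, h2, h3⟩
      refine ⟨1, 1, isUnit_of fun h4 => h3 ?_⟩
      have h5 := dvd_sub (dvd_sub h2 h1) h4
      have e : X 1 0 - X 0 1 - (1 * (X 1 0 * 1 + X 1 1 * 1) - 1 * (X 0 0 * 1 + X 0 1 * 1)) =
          X 0 0 - X 1 1 := by ring
      rwa [e] at h5
    · refine ⟨1, 0, ?_⟩
      have e : (1 : ℤ_[l]) * (X 1 0 * 1 + X 1 1 * 0) - 0 * (X 0 0 * 1 + X 0 1 * 0) = X 1 0 := by ring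
      rw [e]
      exact isUnit_of h2
  · refine ⟨0, 1, ?_⟩
    have e : (0 : ℤ_[l]) * (X 1 0 * 0 + X 1 1 * 1) - 1 * (X 0 0 * 0 + X 0 1 * 1) = -X 0 1 := by ring
    rw [e]
    exact (isUnit_of h1).neg

theorem conj_comp (X : Matrix (Fin 2) (Fin 2) ℤ_[l]) (h : ¬ Dv (l : ℤ_[l]) X) :
    ∃ P : Matrix.GeneralLinearGroup (Fin 2) ℤ_[l],
      X * (P : Matrix (Fin 2) (Fin 2) ℤ_[l]) = P * !![0, -X.det; 1, X.trace] := by
  obtain ⟨x, y, hu⟩ := exists_vec X h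
  have hd : IsUnit (Matrix.det !![x, X 0 0 * x + X 0 1 * y; y, X 1 0 * x + X 1 1 * y]) := by
    rw [Matrix.det_fin_two_of]
    have e : x * (X 1 0 * x + X 1 1 * y) - (X 0 0 * x + X 0 1 * y) * y =
        x * (X 1 0 * x + X 1 1 * y) - y * (X 0 0 * x + X 0 1 * y) := by ring
    rw [e]
    exact hu
  refine ⟨Matrix.GeneralLinearGroup.mk'' _ hd, ?_⟩
  have e0 : ((Matrix.GeneralLinearGroup.mk'' _ hd : Matrix.GeneralLinearGroup (Fin 2) ℤ_[l]) :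
      Matrix (Fin 2) (Fin 2) ℤ_[l]) = !![x, X 0 0 * x + X 0 1 * y; y, X 1 0 * x + X 1 1 * y] := rfl
  rw [e0, Matrix.det_fin_two, Matrix.trace_fin_two]
  ext i j
  fin_cases i <;> fin_cases j <;>
    simp [Matrix.mul_apply, Fin.sum_univ_two] <;> ring

theorem conj_of (X Y : Matrix (Fin 2) (Fin 2) ℤ_[l]) (hX : ¬ Dv (l : ℤ_[l]) X)
    (hY : ¬ Dv (l : ℤ_[l]) Y) (ht : X.trace = Y.trace) (hn : X.det = Y.det) :
    ∃ u : Matrix.GeneralLinearGroup (Fin 2) ℤ_[l],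
      (u : Matrix (Fin 2) (Fin 2) ℤ_[l]) * X = Y * u := by
  obtain ⟨P, hP⟩ := conj_comp X hX
  obtain ⟨Q, hQ⟩ := conj_comp Y hY
  rw [ht, hn] at hP
  obtain ⟨C, hC⟩ : ∃ C : Matrix (Fin 2) (Fin 2) ℤ_[l], C = !![0, -Y.det; 1, Y.trace] := ⟨_, rfl⟩
  rw [← hC] at hP hQ
  refine ⟨Q * P⁻¹, ?_⟩
  have h1 : (P : Matrix (Fin 2) (Fin 2) ℤ_[l]) * (P⁻¹ : Matrix.GeneralLinearGroup (Fin 2) ℤ_[l]) = 1 := by
    rw [← Units.val_mul, mul_inv_cancel, Units.val_one]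
  have h2 : ((P⁻¹ : Matrix.GeneralLinearGroup (Fin 2) ℤ_[l]) : Matrix (Fin 2) (Fin 2) ℤ_[l]) * P = 1 := by
    rw [← Units.val_mul, inv_mul_cancel, Units.val_one]
  have h3 : ((P⁻¹ : Matrix.GeneralLinearGroup (Fin 2) ℤ_[l]) : Matrix (Fin 2) (Fin 2) ℤ_[l]) * X =
      C * (P⁻¹ : Matrix.GeneralLinearGroup (Fin 2) ℤ_[l]) := by
    calc ((P⁻¹ : Matrix.GeneralLinearGroup (Fin 2) ℤ_[l]) : Matrix (Fin 2) (Fin 2) ℤ_[l]) * X
        = (P⁻¹ : Matrix.GeneralLinearGroup (Fin 2) ℤ_[l]) * (X * P) *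
            (P⁻¹ : Matrix.GeneralLinearGroup (Fin 2) ℤ_[l]) := by
          rw [mul_assoc, mul_assoc, h1, mul_one]
      _ = _ := by rw [hP, ← mul_assoc, h2, one_mul]
  rw [Units.val_mul, mul_assoc, h3, ← mul_assoc, ← hQ, mul_assoc]

/-- a matrix is a scalar plus `c` times a matrix -/
theorem decomp (c : ℤ_[l]) (A : Matrix (Fin 2) (Fin 2) ℤ_[l]) (h : Dv c A) (a : ℤ_[l])
    (ha : c ∣ A 1 1 - a) : ∃ X : Matrix (Fin 2) (Fin 2) ℤ_[l],
      A = a • (1 : Matrix (Fin 2) (Fin 2) ℤ_[l]) + c • X := by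
  obtain ⟨⟨b, hb⟩, ⟨d, hd⟩, ⟨e, he⟩⟩ := h
  obtain ⟨f, hf⟩ := ha
  refine ⟨!![e + f, b; d, f], ?_⟩
  have h00 : A 0 0 = a + c * (e + f) := by linear_combination he + hf
  have h11 : A 1 1 = a + c * f := by linear_combination hf
  ext i j
  fin_cases i <;> fin_cases j <;> simp [h00, h11, hb, hd]

theorem dv_mul (c : ℤ_[l]) (hc : c ≠ 0) (a : ℤ_[l]) (X : Matrix (Fin 2) (Fin 2) ℤ_[l]) (d : ℤ_[l]) :
    Dv (c * d) (a • (1 : Matrix (Fin 2) (Fin 2) ℤ_[l]) + c • X) ↔ Dv d X := by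
  unfold Dv
  simp only [Matrix.add_apply, Matrix.smul_apply, smul_eq_mul]
  have e1 : a * (1 : Matrix (Fin 2) (Fin 2) ℤ_[l]) 0 1 + c * X 0 1 = c * X 0 1 := by simp
  have e2 : a * (1 : Matrix (Fin 2) (Fin 2) ℤ_[l]) 1 0 + c * X 1 0 = c * X 1 0 := by simp
  have e3 : a * (1 : Matrix (Fin 2) (Fin 2) ℤ_[l]) 0 0 + c * X 0 0 -
      (a * (1 : Matrix (Fin 2) (Fin 2) ℤ_[l]) 1 1 + c * X 1 1) = c * (X 0 0 - X 1 1) := by
    simp; ring
  rw [e1, e2, e3, mul_dvd_mul_iff_left hc, mul_dvd_mul_iff_left hc, mul_dvd_mul_iff_left hc]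

theorem trace_dec (a c : ℤ_[l]) (X : Matrix (Fin 2) (Fin 2) ℤ_[l]) :
    (a • (1 : Matrix (Fin 2) (Fin 2) ℤ_[l]) + c • X).trace = 2 * a + c * X.trace := by
  rw [Matrix.trace_fin_two, Matrix.trace_fin_two]
  simp
  ring

theorem det_dec (a c : ℤ_[l]) (X : Matrix (Fin 2) (Fin 2) ℤ_[l]) :
    (a • (1 : Matrix (Fin 2) (Fin 2) ℤ_[l]) + c • X).det = a ^ 2 + a * c * X.trace + c ^ 2 * X.det := by
  rw [Matrix.det_fin_two, Matrix.det_fin_two, Matrix.trace_fin_two]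
  simp
  ring

theorem disc_dvd (c : ℤ_[l]) (A : Matrix (Fin 2) (Fin 2) ℤ_[l]) (h : Dv c A) :
    c ^ 2 ∣ A.trace ^ 2 - 4 * A.det := by
  obtain ⟨⟨b, hb⟩, ⟨d, hd⟩, ⟨e, he⟩⟩ := h
  refine ⟨e ^ 2 + 4 * b * d, ?_⟩
  rw [Matrix.trace_fin_two, Matrix.det_fin_two]
  have : (A 0 0 + A 1 1) ^ 2 - 4 * (A 0 0 * A 1 1 - A 0 1 * A 1 0) =
      (A 0 0 - A 1 1) ^ 2 + 4 * (A 0 1 * A 1 0) := by ring
  rw [this, he, hb, hd]
  ring

theorem main (t n : ℤ_[l]) (hD : t ^ 2 - 4 * n ≠ 0) :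
    ∃ (κ : Type) (_ : Finite κ) (col : Matrix (Fin 2) (Fin 2) ℤ_[l] → κ),
      (IsUnit (t ^ 2 - 4 * n) → ∀ A A', col A = col A') ∧
      ∀ A A' : Matrix (Fin 2) (Fin 2) ℤ_[l], A.trace = t → A'.trace = t → A.det = n →
        A'.det = n → col A = col A' → ∃ u : Matrix.GeneralLinearGroup (Fin 2) ℤ_[l],
          (u : Matrix (Fin 2) (Fin 2) ℤ_[l]) * A = A' * u := by
  classical
  have hl0 : (l : ℤ_[l]) ≠ 0 := by
    exact_mod_cast (Fact.out : l.Prime).ne_zero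
  have hlu : ¬ IsUnit (l : ℤ_[l]) := fun hu => not_dvd_of hu dvd_rfl
  -- bound
  obtain ⟨M, hM⟩ : ∃ M : ℕ, ¬ (l : ℤ_[l]) ^ M ∣ t ^ 2 - 4 * n := by
    have := FiniteMultiplicity.of_not_isUnit hlu hD
    obtain ⟨M, hM⟩ := this
    exact ⟨M + 1, hM⟩
  have : NeZero (l ^ M) := ⟨pow_ne_zero _ (Fact.out : l.Prime).ne_zero⟩
  let col0 : Matrix (Fin 2) (Fin 2) ℤ_[l] → (Fin (M + 1) → Prop) × ZMod (l ^ M) := fun A =>
    (fun k => Dv ((l : ℤ_[l]) ^ (k : ℕ)) A, PadicInt.toZModPow M (A 1 1))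
  refine ⟨(Fin (M + 1) → Prop) × ZMod (l ^ M), inferInstance, fun A =>
    if IsUnit (t ^ 2 - 4 * n) then (fun _ => True, 0) else col0 A, ?_, ?_⟩
  · intro hu A A'
    simp only [hu, if_true]
  · intro A A' hA hA' hn hn' hcol
    by_cases hu : IsUnit (t ^ 2 - 4 * n)
    · have key : ∀ B : Matrix (Fin 2) (Fin 2) ℤ_[l], B.trace = t → B.det = n → ¬ Dv (l : ℤ_[l]) B := by
        intro B h1 h2 h3
        have h4 := disc_dvd _ B h3
        rw [h1, h2] at h4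
        exact not_dvd_of hu ((dvd_pow_self _ two_ne_zero).trans h4)
      exact conj_of A A' (key A hA hn) (key A' hA' hn') (hA.trans hA'.symm) (hn.trans hn'.symm)
    · simp only [hu, if_false, col0, Prod.mk.injEq] at hcol
      obtain ⟨h1, h2⟩ := hcol
      have h1' : ∀ k ≤ M, (Dv ((l : ℤ_[l]) ^ k) A ↔ Dv ((l : ℤ_[l]) ^ k) A') := by
        intro k hk
        have := congrFun h1 ⟨k, by omega⟩
        exact iff_of_eq this
      have h2' : (l : ℤ_[l]) ^ M ∣ A' 1 1 - A 1 1 := by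
        have h3 : PadicInt.toZModPow M (A' 1 1 - A 1 1) = 0 := by
          rw [map_sub, h2, sub_self]
        have h4 : A' 1 1 - A 1 1 ∈ RingHom.ker (PadicInt.toZModPow M) := h3
        rw [PadicInt.ker_toZModPow, Ideal.mem_span_singleton] at h4
        exact h4
      -- the largest exponent
      obtain ⟨k, hkM, hk, hk1⟩ : ∃ k : ℕ, k + 1 ≤ M ∧ Dv ((l : ℤ_[l]) ^ k) A ∧
          ¬ Dv ((l : ℤ_[l]) ^ (k + 1)) A := by
        have hM' : ¬ Dv ((l : ℤ_[l]) ^ M) A := by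
          intro h3
          have h4 := disc_dvd _ A h3
          rw [hA, hn] at h4
          exact hM ((dvd_pow_self _ two_ne_zero).trans h4)
        have h0 : Dv ((l : ℤ_[l]) ^ 0) A := by
          unfold Dv
          simp
        obtain ⟨N, hN⟩ : ∃ N, N = Nat.findGreatest (fun k => Dv ((l : ℤ_[l]) ^ k) A) M := ⟨_, rfl⟩
        have hN1 : Dv ((l : ℤ_[l]) ^ N) A := by
          rw [hN]
          exact Nat.findGreatest_spec (P := fun k => Dv ((l : ℤ_[l]) ^ k) A) (Nat.zero_le M) h0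
        have hN2 : N ≤ M := by
          rw [hN]
          exact Nat.findGreatest_le M
        have hN3 : N ≠ M := fun e => hM' (e ▸ hN1)
        refine ⟨N, by omega, hN1, ?_⟩
        have : N < N + 1 := Nat.lt_succ_self N
        intro h5
        have h6 := Nat.le_findGreatest (P := fun k => Dv ((l : ℤ_[l]) ^ k) A)
          (show N + 1 ≤ M by omega) h5
        rw [← hN] at h6
        omega
      have hc : (l : ℤ_[l]) ^ k ≠ 0 := pow_ne_zero _ hl0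
      obtain ⟨X, hX⟩ := decomp _ A hk (A 1 1) (by simp)
      obtain ⟨Y, hY⟩ := decomp _ A' ((h1' k (by omega)).1 hk) (A 1 1)
        ((pow_dvd_pow _ (by omega)).trans h2')
      obtain ⟨a, ha⟩ : ∃ a, a = A 1 1 := ⟨_, rfl⟩
      rw [← ha] at hX hY
      have hX1 : ¬ Dv (l : ℤ_[l]) X := by
        rw [← dv_mul _ hc a X, ← hX, ← pow_succ]
        exact hk1
      have hY1 : ¬ Dv (l : ℤ_[l]) Y := by
        rw [← dv_mul _ hc a Y, ← hY, ← pow_succ, ← h1' _ hkM]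
        exact hk1
      have htr : X.trace = Y.trace := by
        have e1 : 2 * a + (l : ℤ_[l]) ^ k * X.trace = 2 * a + (l : ℤ_[l]) ^ k * Y.trace := by
          rw [← trace_dec, ← trace_dec, ← hX, ← hY, hA, hA']
        exact mul_left_cancel₀ hc (add_left_cancel e1)
      have hdt : X.det = Y.det := by
        have e1 : a ^ 2 + a * (l : ℤ_[l]) ^ k * X.trace + ((l : ℤ_[l]) ^ k) ^ 2 * X.det =
            a ^ 2 + a * (l : ℤ_[l]) ^ k * Y.trace + ((l : ℤ_[l]) ^ k) ^ 2 * Y.det := by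
          rw [← det_dec, ← det_dec, ← hX, ← hY, hn, hn']
        rw [htr] at e1
        exact mul_left_cancel₀ (pow_ne_zero 2 hc) (add_left_cancel e1)
      obtain ⟨u, hu'⟩ := conj_of X Y hX1 hY1 htr hdt
      refine ⟨u, ?_⟩
      rw [hX, hY, mul_add, add_mul, Matrix.mul_smul, Matrix.mul_smul, Matrix.smul_mul,
        Matrix.smul_mul, hu', mul_one, one_mul]

end MatRow

theorem st_MAT : ST_MAT := by
  intro l _ t n hD
  exact MatRow.main t n hD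

end REC
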